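import Pool.Agent.Helper75.SEP.Numbers
import Pool.Agent.Helper1.SEP.LiftTwo

/-!
# The phi theorem (minimum degree three): definitions

Text: team store phi_MP_3f61ad_co_helper1.md. `CI G U`: base facts and induction hypothesis.
`Kp G U A B i j k`: the tuple KEEP'. `phiG`: `A` with its roots and the flexible link `i j`.
`Vio`: the normal form of a violation of connectivity of `phiG`: the set `{k} + X0` has the two
neighbours `s`, `t`. `psiG`: two flexible links.
-/

set_option autoImplicit false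

namespace Pool.Agent.Helper1.PHI

open SimpleGraph Pool.Agent.Helper57.TOK Pool.Agent.Helper57.TD Pool.Agent.Helper57.TOP
  Pool.Agent.Helper82.TK Pool.Agent.Helper51.GX Pool.Agent.Helper75.SEP Pool.Agent.Helper1.SEP

variable {V : Type*}

/-- The edges inside `S` are properly 2-colourable. -/
def BalIn (G : SimpleGraph V) (S : Set V) : Prop :=
  ∃ κ : V → ZMod 2, ∀ u v, u ∈ S → v ∈ S → G.Adj u v → κ u ≠ κ v

/-- Base facts and induction hypothesis. -/
structure CI (G : SimpleGraph V) (U : Set V) : Prop extends CB G U where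
  IH : ∀ (G' : SimpleGraph V) (U' : Set V), Ex3 G' (One V) U' → U'.ncard < U.ncard →
    HasTOK4s G' (One V)

/-- The tuple KEEP': the side `A` is kept, `B` is replaced by a flexible link `i j`. The index
conditions count the edges between the roots. -/
structure Kp (G : SimpleGraph V) (U A B : Set V) (i j k : V) : Prop extends
    Sep3 G U A B i j k where
  Bk : ¬ RApex G B k
  Ai : ¬ BalIn G (A ∪ {j, k})
  Aj : ¬ BalIn G (A ∪ {i, k})
  num : 3 ≤ fden G A + eL G i j k - rr G i j

/-- The connectivity condition of `Ex3`. -/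
def ConnP (H : SimpleGraph V) (U : Set V) : Prop :=
  ∀ Y ⊆ U, 2 ≤ Y.ncard → (Nb H Y).ncard ≤ 2 → (U \ (Y ∪ Nb H Y)).ncard ≤ 1

/-- `A` and its roots with the flexible link `i j` (handle `m`). -/
def phiG (G : SimpleGraph V) (A : Set V) (i j k m : V) : SimpleGraph V :=
  inG G (A ∪ {i, j, k}) ⊔ phE i j m

/-- Vertex set of `phiG`. -/
def phiU (A : Set V) (i j k m : V) : Set V := A ∪ {i, j, k} ∪ {m}

/-- `P` and the roots `i, j, s, t` with the flexible links `i j` (handle `m`) and `s t`
(handle `m'`). -/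
def psiG (G : SimpleGraph V) (P : Set V) (i j s t m m' : V) : SimpleGraph V :=
  (inG G (P ∪ {i, j, s, t}) ⊔ phE s t m') ⊔ phE i j m

/-- Vertex set of `psiG`. -/
def psiU (P : Set V) (i j s t m m' : V) : Set V := P ∪ {i, j, s, t} ∪ {m, m'}

/-- `k` has at least two neighbours outside `B`. -/
def TwoOut (G : SimpleGraph V) (B : Set V) (k : V) : Prop :=
  ∃ x y, x ≠ y ∧ G.Adj k x ∧ G.Adj k y ∧ x ∉ B ∧ y ∉ B

/-- Normal form of a violation of connectivity of `phiG`. -/
structure Vio (G : SimpleGraph V) (A B : Set V) (i j k s t : V) (X0 : Set V) : Prop where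
  sub : X0 ⊆ A
  ne : X0.Nonempty
  st : s ≠ t
  sA : s ∈ A ∨ s = i ∨ s = j
  tA : t ∈ A ∨ t = i ∨ t = j
  sX : s ∉ X0
  tX : t ∉ X0
  nb : ∀ u ∈ X0, ∀ v, G.Adj u v → v ∈ X0 ∨ v = k ∨ v = s ∨ v = t
  nk : ∀ v, G.Adj k v → v ∈ B ∨ v ∈ X0 ∨ v = s ∨ v = t
  nij : (i ≠ s ∧ i ≠ t) ∨ (j ≠ s ∧ j ≠ t)

/-- The part `P` beyond the two-set. -/
def Pt (A X0 : Set V) (s t : V) : Set V := A \ (X0 ∪ {s, t})

section

variable {G : SimpleGraph V} {U A B X0 : Set V} {i j k s t m m' : V}

lemma BalIn.mono {S S' : Set V} (h : BalIn G S) (hs : S' ⊆ S) : BalIn G S' := by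
  obtain ⟨κ, hκ⟩ := h
  exact ⟨κ, fun u v hu hv => hκ u v (hs hu) (hs hv)⟩

lemma Kp.swap (K : Kp G U A B i j k) : Kp G U A B j i k where
  toSep3 := K.toSep3.swap
  Bk := K.Bk
  Ai := K.Aj
  Aj := K.Ai
  num := by
    have h1 := K.num
    have h2 := rr_comm G i j
    have h3 : eL G j i k = eL G i j k := by
      unfold eL; rw [rr_comm G j i]; ring
    rw [h3, rr_comm G j i]
    exact h1

lemma Vio.swap_st (v : Vio G A B i j k s t X0) : Vio G A B i j k t s X0 where
  sub := v.sub
  ne := v.ne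
  st := v.st.symm
  sA := v.tA
  tA := v.sA
  sX := v.tX
  tX := v.sX
  nb := fun u hu w hw => by have := v.nb u hu w hw; tauto
  nk := fun w hw => by have := v.nk w hw; tauto
  nij := by have := v.nij; tauto

lemma Vio.swap_ij (v : Vio G A B i j k s t X0) : Vio G A B j i k s t X0 where
  sub := v.sub
  ne := v.ne
  st := v.st
  sA := by have := v.sA; tauto
  tA := by have := v.tA; tauto
  sX := v.sX
  tX := v.tX
  nb := v.nb
  nk := v.nk
  nij := v.nij.symm

end

end Pool.Agent.Helper1.PHI
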