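import Pool.Agent.Helper1.PHI.Main
import Pool.Agent.Helper1.TOP.OfCut

/-!
# A minimal counterexample has a vertex of degree at most two
-/

set_option autoImplicit false

namespace Pool.Agent.Helper57.TOP

open SimpleGraph Pool.Agent.Helper82.TK Pool.Agent.Helper51.GX

variable {V : Type*} {G : SimpleGraph V} {U : Set V}

/-- A minimal counterexample does not have minimum degree three. -/
theorem GMin.false_of_deg3 [Finite V] [Nonempty V] (hM : GMin G U)
    (hdeg : ∀ y ∈ U, 3 ≤ (G.neighborSet y).ncard) : False :=
  hM.false_of_cut (Pool.Agent.Helper1.PHI.cut hM hdeg) hdeg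

/-- A minimal counterexample has a vertex of degree two. -/
theorem GMin.exists_deg2 [Finite V] [Nonempty V] (hM : GMin G U) :
    ∃ h ∈ U, (G.neighborSet h).ncard = 2 := by
  by_contra hcon
  refine hM.false_of_deg3 (fun y hy => ?_)
  have h2 := hM.ex.deg2 y hy
  by_contra hlt
  exact hcon ⟨y, hy, by omega⟩

end Pool.Agent.Helper57.TOP
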