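import Pool.Agent.Helper1.PHI.Defs

/-!
# The identity (*)
-/

set_option autoImplicit false

namespace Pool.Agent.Helper1.PHI

open SimpleGraph Pool.Agent.Helper57.TOK Pool.Agent.Helper57.TD Pool.Agent.Helper57.TOP
  Pool.Agent.Helper82.TK Pool.Agent.Helper51.GX Pool.Agent.Helper75.SEP Pool.Agent.Helper1.SEP

variable {V : Type*} {G : SimpleGraph V} {U A B X0 : Set V} {i j k s t : V}

/-- One more vertex is removed from a neighbourhood. -/
lemma rr_step [Finite V] (G : SimpleGraph V) {x a : V} {S : Set V} (ha : a ∉ S) :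
    ((G.neighborSet x \ S).ncard : ℤ) = rr G x a + ((G.neighborSet x \ insert a S).ncard : ℤ) := by
  classical
  unfold rr
  by_cases h : G.Adj x a
  · rw [if_pos h]
    have e : G.neighborSet x \ S = insert a (G.neighborSet x \ insert a S) := by
      ext v
      simp only [Set.mem_sdiff, SimpleGraph.mem_neighborSet, Set.mem_insert_iff, not_or]
      constructor
      · rintro ⟨h1, h2⟩
        by_cases h3 : v = a
        · exact Or.inl h3
        · exact Or.inr ⟨h1, h3, h2⟩
      · rintro (h1 | ⟨h1, -, h2⟩)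
        · rw [h1]; exact ⟨h, ha⟩
        · exact ⟨h1, h2⟩
    rw [e, Set.ncard_insert_of_notMem _ (Set.toFinite _)]
    · push_cast; ring
    · rintro ⟨-, h2⟩
      exact h2 (Or.inl rfl)
  · rw [if_neg h, zero_add]
    have e : G.neighborSet x \ S = G.neighborSet x \ insert a S := by
      ext v
      simp only [Set.mem_sdiff, SimpleGraph.mem_neighborSet, Set.mem_insert_iff, not_or]
      constructor
      · rintro ⟨h1, h2⟩
        exact ⟨h1, fun h3 => h (h3 ▸ h1), h2⟩
      · rintro ⟨h1, -, h2⟩
        exact ⟨h1, h2⟩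
    rw [e]

lemma rr_zero_of {G : SimpleGraph V} {i j : V} (h : ¬ G.Adj i j) : rr G i j = 0 := by
  unfold rr; rw [if_neg h]

/-- The part `P` and `X0`: no edges between them. -/
lemma Vio.fden_union [Finite V] (v : Vio G A B i j k s t X0) (K : Kp G U A B i j k) :
    fden G (Pt A X0 s t ∪ X0) = fden G (Pt A X0 s t) + fden G X0 := by
  have hd : Disjoint (Pt A X0 s t) X0 := by
    rw [Set.disjoint_left]
    rintro x ⟨-, h1⟩ h2
    exact h1 (Or.inl h2)
  have h1 := fden_union_of_disjoint G hd
  have h2 : EBet G (Pt A X0 s t) X0 = ∅ := by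
    rw [Set.eq_empty_iff_forall_notMem]
    rintro e ⟨x, hx, y, hy, hxy, -⟩
    rcases v.nb y hy x hxy.symm with h3 | h3 | h3 | h3
    · exact hx.2 (Or.inl h3)
    · exact K.toSep3.notA (Or.inr (Or.inr rfl)) (h3 ▸ hx.1)
    · exact hx.2 (Or.inr (Or.inl h3))
    · exact hx.2 (Or.inr (Or.inr h3))
  rw [h2, Set.ncard_empty] at h1
  push_cast at h1
  linarith

/-- not shared -/
theorem Vio.ident [Finite V] (v : Vio G A B i j k s t X0) (K : Kp G U A B i j k)
    (hs : s ∈ A) (ht : t ∈ A) :
    fden G A + eL G i j k - rr G i j = fden G (Pt A X0 s t) + rr G i s + rr G i t + rr G j s +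
      rr G j t + rr G s t + fden G X0 + rr G k s + rr G k t - 4 := by
  classical
  have hiA : i ∉ A := K.toSep3.notA (Or.inl rfl)
  have hjA : j ∉ A := K.toSep3.notA (Or.inr (Or.inl rfl))
  have hkA : k ∉ A := K.toSep3.notA (Or.inr (Or.inr rfl))
  have hPA : Pt A X0 s t ⊆ A := fun x hx => hx.1
  have hUA : Pt A X0 s t ∪ X0 ⊆ A := Set.union_subset hPA v.sub
  have hki : rr G i k = 0 := by
    apply rr_zero_of
    intro h
    rcases v.nk i h.symm with h1 | h1 | h1 | h1
    · exact K.toSep3.notB (Or.inl rfl) h1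
    · exact hiA (v.sub h1)
    · exact hiA (h1 ▸ hs)
    · exact hiA (h1 ▸ ht)
  have hkj : rr G j k = 0 := by
    apply rr_zero_of
    intro h
    rcases v.nk j h.symm with h1 | h1 | h1 | h1
    · exact K.toSep3.notB (Or.inr (Or.inl rfl)) h1
    · exact hjA (v.sub h1)
    · exact hjA (h1 ▸ hs)
    · exact hjA (h1 ▸ ht)
  have htn : t ∉ Pt A X0 s t ∪ X0 := by
    rintro (h | h)
    · exact h.2 (Or.inr (Or.inr rfl))
    · exact v.tX h
  have hsn0 : s ∉ Pt A X0 s t ∪ X0 := by
    rintro (h | h)
    · exact h.2 (Or.inr (Or.inl rfl))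
    · exact v.sX h
  have hsn : s ∉ insert t (Pt A X0 s t ∪ X0) := by
    rintro (h | h)
    · exact v.st h
    · exact hsn0 h
  have hAe : A = insert s (insert t (Pt A X0 s t ∪ X0)) := by
    ext x
    constructor
    · intro hx
      by_cases h1 : x = s
      · exact Or.inl h1
      by_cases h2 : x = t
      · exact Or.inr (Or.inl h2)
      by_cases h3 : x ∈ X0
      · exact Or.inr (Or.inr (Or.inr h3))
      · refine Or.inr (Or.inr (Or.inl ⟨hx, ?_⟩))
        rintro (h4 | h4 | h4)
        · exact h3 h4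
        · exact h1 h4
        · exact h2 h4
    · rintro (h1 | h1 | h1)
      · rw [h1]; exact hs
      · rw [h1]; exact ht
      · exact hUA h1
  have hu := v.fden_union K
  -- the vertex `t`
  have e1 := fden_insert G htn
  have f1 := rr_step (x := t) G hsn0
  have hi1 : i ∉ insert s (Pt A X0 s t ∪ X0) := by
    rintro (h | h)
    · exact hiA (h ▸ hs)
    · exact hiA (hUA h)
  have f2 := rr_step (x := t) G hi1
  have hj1 : j ∉ insert i (insert s (Pt A X0 s t ∪ X0)) := by
    rintro (h | h | h)
    · exact K.ij h.symm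
    · exact hjA (h ▸ hs)
    · exact hjA (hUA h)
  have f3 := rr_step (x := t) G hj1
  have hk1 : k ∉ insert j (insert i (insert s (Pt A X0 s t ∪ X0))) := by
    rintro (h | h | h | h)
    · exact K.jk h.symm
    · exact K.ik h.symm
    · exact hkA (h ▸ hs)
    · exact hkA (hUA h)
  have f4 := rr_step (x := t) G hk1
  have f5 : G.neighborSet t \ insert k (insert j (insert i (insert s (Pt A X0 s t ∪ X0)))) = ∅ := by
    rw [Set.eq_empty_iff_forall_notMem]
    rintro x ⟨h1, h2⟩
    apply h2
    rcases K.toSep3.nbA ht h1 with h3 | h3 | h3 | h3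
    · rw [hAe] at h3
      rcases h3 with h3 | h3 | h3
      · exact Or.inr (Or.inr (Or.inr (Or.inl h3)))
      · exact absurd h3 (G.ne_of_adj h1).symm
      · exact Or.inr (Or.inr (Or.inr (Or.inr h3)))
    · exact Or.inr (Or.inr (Or.inl h3))
    · exact Or.inr (Or.inl h3)
    · exact Or.inl h3
  rw [f5, Set.ncard_empty] at f4
  -- the vertex `s`
  have e2 := fden_insert G hsn
  have hi2 : i ∉ insert t (Pt A X0 s t ∪ X0) := by
    rintro (h | h)
    · exact hiA (h ▸ ht)
    · exact hiA (hUA h)
  have g2 := rr_step (x := s) G hi2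
  have hj2 : j ∉ insert i (insert t (Pt A X0 s t ∪ X0)) := by
    rintro (h | h | h)
    · exact K.ij h.symm
    · exact hjA (h ▸ ht)
    · exact hjA (hUA h)
  have g3 := rr_step (x := s) G hj2
  have hk2 : k ∉ insert j (insert i (insert t (Pt A X0 s t ∪ X0))) := by
    rintro (h | h | h | h)
    · exact K.jk h.symm
    · exact K.ik h.symm
    · exact hkA (h ▸ ht)
    · exact hkA (hUA h)
  have g4 := rr_step (x := s) G hk2
  have g5 : G.neighborSet s \ insert k (insert j (insert i (insert t (Pt A X0 s t ∪ X0)))) = ∅ := by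
    rw [Set.eq_empty_iff_forall_notMem]
    rintro x ⟨h1, h2⟩
    apply h2
    rcases K.toSep3.nbA hs h1 with h3 | h3 | h3 | h3
    · rw [hAe] at h3
      rcases h3 with h3 | h3 | h3
      · exact absurd h3 (G.ne_of_adj h1).symm
      · exact Or.inr (Or.inr (Or.inr (Or.inl h3)))
      · exact Or.inr (Or.inr (Or.inr (Or.inr h3)))
    · exact Or.inr (Or.inr (Or.inl h3))
    · exact Or.inr (Or.inl h3)
    · exact Or.inl h3
  rw [g5, Set.ncard_empty] at g4
  rw [← hAe] at e2
  push_cast at f4 g4
  have c1 := rr_comm G t s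
  have c2 := rr_comm G t i
  have c3 := rr_comm G t j
  have c4 := rr_comm G t k
  have c5 := rr_comm G s i
  have c6 := rr_comm G s j
  have c7 := rr_comm G s k
  unfold eL
  linarith

/-- shared, `s = i` -/
theorem Vio.ident' [Finite V] (v : Vio G A B i j k s t X0) (K : Kp G U A B i j k)
    (hs : s = i) (ht : t ∈ A) :
    fden G A + eL G i j k - rr G i j = fden G (Pt A X0 s t) + rr G i t + rr G j t +
      fden G X0 + rr G k i + rr G k t - 2 := by
  classical
  have hiA : i ∉ A := K.toSep3.notA (Or.inl rfl)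
  have hjA : j ∉ A := K.toSep3.notA (Or.inr (Or.inl rfl))
  have hkA : k ∉ A := K.toSep3.notA (Or.inr (Or.inr rfl))
  have hPA : Pt A X0 s t ⊆ A := fun x hx => hx.1
  have hUA : Pt A X0 s t ∪ X0 ⊆ A := Set.union_subset hPA v.sub
  have hkj : rr G j k = 0 := by
    apply rr_zero_of
    intro h
    rcases v.nk j h.symm with h1 | h1 | h1 | h1
    · exact K.toSep3.notB (Or.inr (Or.inl rfl)) h1
    · exact hjA (v.sub h1)
    · exact K.ij (hs.symm.trans h1.symm)
    · exact hjA (h1 ▸ ht)
  have htn : t ∉ Pt A X0 s t ∪ X0 := by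
    rintro (h | h)
    · exact h.2 (Or.inr (Or.inr rfl))
    · exact v.tX h
  have hAe : A = insert t (Pt A X0 s t ∪ X0) := by
    ext x
    constructor
    · intro hx
      by_cases h2 : x = t
      · exact Or.inl h2
      by_cases h3 : x ∈ X0
      · exact Or.inr (Or.inr h3)
      · refine Or.inr (Or.inl ⟨hx, ?_⟩)
        rintro (h4 | h4 | h4)
        · exact h3 h4
        · exact hiA (hs ▸ h4 ▸ hx)
        · exact h2 h4
    · rintro (h1 | h1)
      · rw [h1]; exact ht
      · exact hUA h1
  have hu := v.fden_union K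
  have e1 := fden_insert G htn
  have hi1 : i ∉ Pt A X0 s t ∪ X0 := fun h => hiA (hUA h)
  have f2 := rr_step (x := t) G hi1
  have hj1 : j ∉ insert i (Pt A X0 s t ∪ X0) := by
    rintro (h | h)
    · exact K.ij h.symm
    · exact hjA (hUA h)
  have f3 := rr_step (x := t) G hj1
  have hk1 : k ∉ insert j (insert i (Pt A X0 s t ∪ X0)) := by
    rintro (h | h | h)
    · exact K.jk h.symm
    · exact K.ik h.symm
    · exact hkA (hUA h)
  have f4 := rr_step (x := t) G hk1
  have f5 : G.neighborSet t \ insert k (insert j (insert i (Pt A X0 s t ∪ X0))) = ∅ := by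
    rw [Set.eq_empty_iff_forall_notMem]
    rintro x ⟨h1, h2⟩
    apply h2
    rcases K.toSep3.nbA ht h1 with h3 | h3 | h3 | h3
    · rw [hAe] at h3
      rcases h3 with h3 | h3
      · exact absurd h3 (G.ne_of_adj h1).symm
      · exact Or.inr (Or.inr (Or.inr h3))
    · exact Or.inr (Or.inr (Or.inl h3))
    · exact Or.inr (Or.inl h3)
    · exact Or.inl h3
  rw [f5, Set.ncard_empty] at f4
  rw [← hAe] at e1
  push_cast at f4
  have c2 := rr_comm G t i
  have c3 := rr_comm G t j
  have c4 := rr_comm G t k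
  have c5 := rr_comm G k i
  unfold eL
  linarith

end Pool.Agent.Helper1.PHI
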