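import Pool.Agent.Helper1.PHI.Defs
import Pool.Agent.Helper73.C3.Flex

/-!
# [D] The two-set `{k} + X0` is flexible (helper73)

Text: (T4) of phi_MP_3f61ad_co_helper1.md.
-/

set_option autoImplicit false

namespace Pool.Agent.Helper1.PHI

open SimpleGraph Pool.Agent.Helper57.TOK Pool.Agent.Helper57.TD Pool.Agent.Helper57.TOP
  Pool.Agent.Helper82.TK Pool.Agent.Helper51.GX Pool.Agent.Helper75.SEP Pool.Agent.Helper1.SEP
  Pool.Agent.Helper1.TD Pool.Agent.Helper1.GL Pool.Agent.Helper73.C3

variable {V : Type*} {G : SimpleGraph V} {U A B X0 : Set V} {i j k s t : V}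

/-- The edges which meet `X` inside `X + s + t`. -/
def linkG (G : SimpleGraph V) (X : Set V) (s t : V) : SimpleGraph V where
  Adj x y := G.Adj x y ∧ (x ∈ X ∨ y ∈ X) ∧ (x ∈ X ∨ x = s ∨ x = t) ∧ (y ∈ X ∨ y = s ∨ y = t)
  symm := ⟨fun _ _ h => ⟨h.1.symm, h.2.1.symm, h.2.2.2, h.2.2.1⟩⟩
  loopless := ⟨fun _ h => h.1.ne rfl⟩

theorem Vio.flex [Finite V] (v : Vio G A B i j k s t X0) (K : Kp G U A B i j k) (h : CB G U)
    (hk : TwoOut G B k) (t0 : ZMod 2) :
    ∃ R : G.Walk s t, R.IsPath ∧ wt (fun _ => 1) R = t0 ∧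
      ∀ x ∈ R.support, x ∈ insert k X0 ∨ x = s ∨ x = t := by
  classical
  set X : Set V := insert k X0 with hX
  have hiB : i ∉ B := K.toSep3.notB (Or.inl rfl)
  have hjB : j ∉ B := K.toSep3.notB (Or.inr (Or.inl rfl))
  have hkB : k ∉ B := K.toSep3.notB (Or.inr (Or.inr rfl))
  have hkA : k ∉ A := K.toSep3.notA (Or.inr (Or.inr rfl))
  have hAB : ∀ x ∈ A, x ∉ B := fun x hx => Set.disjoint_left.1 K.disj hx
  have hsB : s ∉ B := by
    rcases v.sA with h1 | h1 | h1
    · exact hAB s h1
    · rwa [h1]
    · rwa [h1]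
  have htB : t ∉ B := by
    rcases v.tA with h1 | h1 | h1
    · exact hAB t h1
    · rwa [h1]
    · rwa [h1]
  have hXB : ∀ x, (x ∈ X ∨ x = s ∨ x = t) → x ∉ B := by
    rintro x ((rfl | h1) | rfl | rfl)
    · exact hkB
    · exact hAB x (v.sub h1)
    · exact hsB
    · exact htB
  have hkX0 : k ∉ X0 := fun h1 => hkA (v.sub h1)
  obtain ⟨b1, hb1, b2, hb2, hb12⟩ := (Set.one_lt_ncard (Set.toFinite B)).1 K.B2
  have hadjX : ∀ {x y}, (linkG G X s t).Adj x y ↔ G.Adj x y ∧ (x ∈ X ∨ y ∈ X) ∧
      (x ∈ X ∨ x = s ∨ x = t) ∧ (y ∈ X ∨ y = s ∨ y = t) := fun {x y} => Iff.rfl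
  have hB0 : ∀ b ∈ B, ∀ x, ¬ (linkG G X s t).Adj b x := fun b hb x h1 => hXB b h1.2.2.1 hb
  -- adjacency of the vertices of `X0`
  have hX0adj : ∀ u ∈ X0, ∀ w, G.Adj u w → (linkG G X s t).Adj u w := by
    intro u hu w huw
    refine ⟨huw, Or.inl (Or.inr hu), Or.inl (Or.inr hu), ?_⟩
    rcases v.nb u hu w huw with h1 | h1 | h1 | h1
    · exact Or.inl (Or.inr h1)
    · exact Or.inl (Or.inl h1)
    · exact Or.inr (Or.inl h1)
    · exact Or.inr (Or.inr h1)
  have hkadj : ∀ w, G.Adj k w → w ∉ B → (linkG G X s t).Adj k w := by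
    intro w hkw hwB
    refine ⟨hkw, Or.inl (Or.inl rfl), Or.inl (Or.inl rfl), ?_⟩
    rcases v.nk w hkw with h1 | h1 | h1 | h1
    · exact absurd h1 hwB
    · exact Or.inl (Or.inr h1)
    · exact Or.inr (Or.inl h1)
    · exact Or.inr (Or.inr h1)
  rcases one_path (H := linkG G X s t) (c := fun _ => 1) v.st (fun h1 => hsB (h1 ▸ hb1))
    (fun h1 => hsB (h1 ▸ hb2)) (fun h1 => htB (h1 ▸ hb1)) (fun h1 => htB (h1 ▸ hb2)) hb12
    (hB0 b1 hb1) (hB0 b2 hb2) t0 with ⟨P, hP, hPw⟩ | ⟨A1, ρ, hsA, htA, -, -, -, hedge, hwalk⟩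
  · have hle : linkG G X s t ≤ G := fun _ _ h1 => h1.1
    refine ⟨P.mapLe hle, hP.mapLe hle, ?_, ?_⟩
    · rw [wt_mapLe]; exact hPw
    · intro x hx
      rw [Walk.support_mapLe_eq_support] at hx
      have h1 : ∀ x ∈ P.support, x ∈ {x | x ∈ X ∨ x = s ∨ x = t} := by
        apply walk_closed _ P
        · exact Or.inr (Or.inl rfl)
        · intro x y _ hxy
          exact hxy.2.2.2
      exact h1 x hx
  · exfalso
    have hall : ∀ x ∈ X, x ∈ A1 := by
      intro x hxX
      by_contra hxA
      set C : Set V := Reach (linkG G X s t) {x} A1 with hC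
      have hxC : x ∈ C := reach_of_mem rfl hxA
      have hCA : ∀ z ∈ C, z ∉ A1 := fun z hz => not_mem_of_reach hz
      have hCX : C ⊆ X := by
        intro z hz
        have hzA := hCA z hz
        obtain ⟨w, hw, p, hp⟩ := hz
        rw [Set.mem_singleton_iff] at hw
        subst hw
        have h1 : z ∈ {z | z ∈ X ∨ z = s ∨ z = t} :=
          walk_closed (H := linkG G X s t) (S := {z | z ∈ X ∨ z = s ∨ z = t})
            (fun u v _ huv => (hadjX.1 huv).2.2.2) p (Or.inl hxX) z p.end_mem_support
        rcases h1 with h1 | h1 | h1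
        · exact h1
        · exact absurd (h1 ▸ hsA) hzA
        · exact absurd (h1 ▸ htA) hzA
      -- two neighbours in `A1` are equal
      have huq : ∀ z ∈ C, ∀ z' ∈ C, ∀ w w', w ∈ A1 → w' ∈ A1 → (linkG G X s t).Adj z w →
          (linkG G X s t).Adj z' w' → w = w' := by
        intro z hz z' hz' w w' hw hw' hzw hzw'
        by_contra hne
        obtain ⟨y, hy, p, hp⟩ := hz
        obtain ⟨y', hy', q, hq⟩ := hz'
        rw [Set.mem_singleton_iff] at hy hy'
        subst hy
        subst hy'
        refine hwalk w hw w' hw' hne z z' hzw.symm hzw'.symm (p.reverse.append q) ?_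
        intro y hy
        rw [Walk.mem_support_append_iff, Walk.support_reverse, List.mem_reverse] at hy
        rcases hy with hy | hy
        · exact hp y hy
        · exact hq y hy
      by_cases hD : (C \ {k}).Nonempty
      · have hDX : C \ {k} ⊆ X0 := by
          intro z hz
          rcases hCX hz.1 with h1 | h1
          · exact absurd h1 hz.2
          · exact h1
        have hND : ∀ w ∈ Nb G (C \ {k}), w = k ∨ (w ∈ A1 ∧ ∃ z ∈ C, (linkG G X s t).Adj z w) := by
          rintro w ⟨hw, z, hz, hzw⟩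
          by_cases hwk : w = k
          · exact Or.inl hwk
          right
          have h1 := hX0adj z (hDX hz) w hzw
          refine ⟨?_, z, hz.1, h1⟩
          by_contra hwA
          exact hw ⟨reach_adj hz.1 h1 hwA, hwk⟩
        have hN2 : (Nb G (C \ {k})).ncard ≤ 2 := by
          by_cases hex : ∃ w ∈ Nb G (C \ {k}), w ≠ k
          · obtain ⟨w, hw, hwk⟩ := hex
            obtain ⟨h3, z, hz, hzw⟩ := (hND w hw).resolve_left hwk
            have h1 : Nb G (C \ {k}) ⊆ {k, w} := by
              intro w' hw'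
              rcases hND w' hw' with h2 | ⟨h4, z', hz', hzw'⟩
              · exact Or.inl h2
              · exact Or.inr (huq z' hz' z hz w' w h4 h3 hzw' hzw)
            exact (Set.ncard_le_ncard h1 (Set.toFinite _)).trans (ncard_pair_le' _ _)
          · push Not at hex
            have h1 : Nb G (C \ {k}) ⊆ {k, k} := fun z hz => Or.inl (hex z hz)
            exact (Set.ncard_le_ncard h1 (Set.toFinite _)).trans (ncard_pair_le' _ _)
        have hDU : C \ {k} ⊆ U := fun z hz => K.AU (v.sub (hDX hz))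
        by_cases h2 : 2 ≤ (C \ {k}).ncard
        · have h3 := h.conn _ hDU h2 hN2
          have hmem : ∀ b ∈ B, b ∈ U \ (C \ {k} ∪ Nb G (C \ {k})) := by
            intro b hb
            refine ⟨K.BU hb, ?_⟩
            rintro (h4 | ⟨-, z, hz, hzb⟩)
            · exact hAB b (v.sub (hDX h4)) hb
            · exact hXB b (hX0adj z (hDX hz) b hzb).2.2.2 hb
          exact hb12 (eq_of_ncard_le_one h3 (hmem b1 hb1) (hmem b2 hb2))
        · obtain ⟨z, hz⟩ := hD
          have h3 : ∀ z' ∈ C \ {k}, z' = z := by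
            intro z' hz'
            by_contra hne
            exact h2 (two_le_ncard_of hz' hz hne)
          have h4 : G.neighborSet z ⊆ Nb G (C \ {k}) := by
            intro y hy
            refine ⟨fun h5 => ?_, z, hz, hy⟩
            rw [h3 y h5] at hy
            exact SimpleGraph.irrefl _ hy
          have h5 := h.deg3 z (hDU hz)
          have h6 := Set.ncard_le_ncard h4 (Set.toFinite _)
          omega
      · have hxk : x = k := by
          by_contra hne
          exact hD ⟨x, hxC, hne⟩
        subst hxk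
        have hout : ∀ w, G.Adj x w → w ∉ B → w ∈ A1 := by
          intro w hxw hwB
          by_contra hwA
          exact hD ⟨w, reach_adj hxC (hkadj w hxw hwB) hwA, fun h1 => hxw.ne h1.symm⟩
        obtain ⟨x1, y1, hne, h1, h2, h3, h4⟩ := hk
        exact hne (huq x hxC x hxC x1 y1 (hout x1 h1 h3) (hout y1 h2 h4) (hkadj x1 h1 h3)
          (hkadj y1 h2 h4))
    have hallw : ∀ w, (w ∈ X ∨ w = s ∨ w = t) → w ∈ A1 := by
      rintro w (h1 | h1 | h1)
      · exact hall w h1
      · rw [h1]; exact hsA
      · rw [h1]; exact htA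
    have hne : ∀ u w, (linkG G X s t).Adj u w → ρ u ≠ ρ w := by
      intro u w huw
      have h1 := hedge u (hallw u huw.2.2.1) w (hallw w huw.2.2.2) huw
      intro h2
      rw [h2, CharTwo.add_self_eq_zero] at h1
      exact one_ne_zero h1
    have hNX : Nb G X0 ⊆ {k, s, t} := by
      rintro w ⟨hw, u, hu, huw⟩
      rcases v.nb u hu w huw with h1 | h1 | h1 | h1
      · exact absurd h1 hw
      · exact Or.inl h1
      · exact Or.inr (Or.inl h1)
      · exact Or.inr (Or.inr h1)
    have hN3 : (Nb G X0).ncard ≤ 3 := (Set.ncard_le_ncard hNX (Set.toFinite _)).trans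
      (three_sub (S := {k, s, t}) subset_rfl)
    by_cases h2 : 2 ≤ X0.ncard
    · have h3 := h.P1 X0 (v.sub.trans K.AU) h2 ρ (fun u w hu huw => hne u w (hX0adj u hu w huw))
      omega
    · obtain ⟨u, hu⟩ := v.ne
      have h3 : ∀ z ∈ X0, z = u := by
        intro z hz
        by_contra hne
        exact h2 (two_le_ncard_of hz hu hne)
      have h4 : G.neighborSet u ⊆ {k, s, t} := by
        intro y hy
        apply hNX
        refine ⟨fun h5 => ?_, u, hu, hy⟩
        rw [h3 y h5] at hy
        exact SimpleGraph.irrefl _ hy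
      have h5 := h.deg3 u (K.AU (v.sub hu))
      have h6 : G.neighborSet u = {k, s, t} := by
        refine Set.eq_of_subset_of_ncard_le h4 ?_ (Set.toFinite _)
        exact (three_sub (S := {k, s, t}) subset_rfl).trans h5
      have huk : G.Adj u k := by
        have : k ∈ G.neighborSet u := by rw [h6]; simp
        exact this
      have hus : G.Adj u s := by
        have : s ∈ G.neighborSet u := by rw [h6]; simp
        exact this
      have hut : G.Adj u t := by
        have : t ∈ G.neighborSet u := by rw [h6]; simp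
        exact this
      have e1 := hne u k (hX0adj u hu k huk)
      have e2 := hne u s (hX0adj u hu s hus)
      have e3 := hne u t (hX0adj u hu t hut)
      have key : ∀ w, G.Adj k w → w ∉ B → w = u := by
        intro w hkw hwB
        have e4 := hne k w (hkadj w hkw hwB)
        rcases v.nk w hkw with h7 | h7 | h7 | h7
        · exact absurd h7 hwB
        · exact h3 w h7
        · exfalso
          rw [h7] at e4
          revert e1 e2 e4
          generalize ρ u = a; generalize ρ k = b; generalize ρ s = d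
          revert a b d; decide
        · exfalso
          rw [h7] at e4
          revert e1 e3 e4
          generalize ρ u = a; generalize ρ k = b; generalize ρ t = d
          revert a b d; decide
      obtain ⟨x1, y1, hne1, h7, h8, h9, h10⟩ := hk
      exact hne1 ((key x1 h7 h9).trans (key y1 h8 h10).symm)

end Pool.Agent.Helper1.PHI
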