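import Pool.Agent.Helper1.PHI.StubB
import Pool.Agent.Helper1.PHI.Ident
import Pool.Agent.Helper51.W2.PsiDens

/-!
# [E] The graph with two flexible links is in the class (helper51)

`hmax`: `X0` is inclusion-maximal among all violations. `hnum` is (T3). `hcase`: not shared, or
`s = i`, `t` in `A` and the index condition.
Text: section 3 of phi_MP_3f61ad_co_helper1.md.
-/

set_option autoImplicit false

namespace Pool.Agent.Helper1.PHI

open SimpleGraph Pool.Agent.Helper57.TOK Pool.Agent.Helper57.TD Pool.Agent.Helper57.TOP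
  Pool.Agent.Helper82.TK Pool.Agent.Helper51.GX Pool.Agent.Helper75.SEP Pool.Agent.Helper1.SEP
  Pool.Agent.Helper51.W2

variable {V : Type*} {G : SimpleGraph V} {U A B X0 : Set V} {i j k s t m : V}

theorem Vio.ex3 [Finite V] (v : Vio G A B i j k s t X0) (K : Kp G U A B i j k) (h : CB G U)
    (hm : m ∈ B) (_hk : TwoOut G B k)
    (hmax : ∀ s' t' X', Vio G A B i j k s' t' X' → X0 ⊆ X' → X' = X0)
    (hnum : fden G X0 + rr G k s + rr G k t + rr G s t ≤ 3)
    (hcase : (s ≠ i ∧ s ≠ j ∧ t ≠ i ∧ t ≠ j) ∨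
      (s = i ∧ t ∈ A ∧ ¬ BalIn G (Pt A X0 s t ∪ {j, t}))) :
    Ex3 (psiG G (Pt A X0 s t) i j s t m k) (One V) (psiU (Pt A X0 s t) i j s t m k) := by
  have h0 : PS G U A B X0 (Pt A X0 s t) i j k s t m := ⟨K.toSep3, h, v, hm, rfl⟩
  have hidx := h0.index hcase
  have hc := h0.conn hmax
  have hK := K.num
  refine ⟨PS.edge_mem, h0.deg2, hc, ?_, hidx, ?_⟩
  · rw [odG_one]
    rcases hcase with ⟨h1, h2, h3, h4⟩ | ⟨h1, h2, -⟩
    · have hsA : s ∈ A := by
        rcases v.sA with h5 | h5 | h5
        · exact h5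
        · exact absurd h5 h1
        · exact absurd h5 h2
      have htA : t ∈ A := by
        rcases v.tA with h5 | h5 | h5
        · exact h5
        · exact absurd h5 h3
        · exact absurd h5 h4
      have hid := v.ident K hsA htA
      exact h0.dens1 h1 h2 h3 h4 (by linarith)
    · have hid := v.ident' K h1 h2
      refine h0.dens2 h1 (fun hh => h0.iA (hh ▸ h2)) (fun hh => h0.jA (hh ▸ h2)) ?_
      subst h1
      rw [rr_comm G k s, rr_comm G k t] at hnum hid
      linarith
  · intro Y hY hY2 hN hrest κ hb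
    rw [odG_one]
    exact h0.sparse hc hidx Y hY hY2 hN hrest κ hb

end Pool.Agent.Helper1.PHI
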