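import Pool.Agent.Helper1.PHI.Shared
import Pool.Agent.Helper1.PHI.StubD
import Pool.Agent.Helper1.PHI.StubE
import Pool.Agent.Helper82.TK.P1
import Pool.Agent.Helper95.SEP.Final

/-!
# The phi theorem (minimum degree three)

`Kp.false`: there is no tuple `Kp`. `phi`: no `Keep`. `cut`: a minimal counterexample of minimum
degree three has no nontrivial 3-separation.
-/

set_option autoImplicit false

namespace Pool.Agent.Helper1.PHI

open SimpleGraph Pool.Agent.Helper57.TOK Pool.Agent.Helper57.TD Pool.Agent.Helper57.TOP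
  Pool.Agent.Helper82.TK Pool.Agent.Helper51.GX Pool.Agent.Helper75.SEP Pool.Agent.Helper1.SEP

variable {V : Type*} {G : SimpleGraph V} {U A B X0 : Set V} {i j k s t m : V}

/-- Flexible link `i j` through `B`. -/
lemma Kp.linkB [Finite V] (K : Kp G U A B i j k) (h : CB G U) (t0 : ZMod 2) :
    ∃ R : G.Walk i j, R.IsPath ∧ wt (fun _ => 1) R = t0 ∧
      ∀ x ∈ R.support, x ∈ B ∨ x = i ∨ x = j := by
  have hr : (U \ (B ∪ Nb G B)).Nonempty := by
    have hA2 := K.A2
    obtain ⟨b, hb⟩ : A.Nonempty := by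
      rw [← Set.ncard_pos (Set.toFinite _)]; omega
    refine ⟨b, K.AU hb, ?_⟩
    rintro (h1 | h1)
    · exact Set.disjoint_left.1 K.disj hb h1
    · rw [K.NB] at h1; exact K.toSep3.notA h1 hb
  obtain ⟨p, p1, p2, p3, -⟩ := Pool.Agent.Helper73.C3.flex'
    (c := fun _ => 1) h.edge_mem h.conn K.BU K.NB K.ij K.ik K.jk
    hr (fun κ hκ => K.Bk ⟨κ, fun u v hu hv huv => add_eq_one_iff.1 (hκ u v hu hv huv).symm⟩) t0
  exact ⟨p, p1, p2, fun x hx => (p3 x hx).1⟩

/-- A maximal violation gives a contradiction, first form. -/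
lemma Vio.kill [Finite V] (v : Vio G A B i j k s t X0) (K : Kp G U A B i j k) (h : CI G U)
    (hm : m ∈ B) (hk : TwoOut G B k)
    (hmax : ∀ s' t' X', Vio G A B i j k s' t' X' → X0 ⊆ X' → X' = X0)
    (hIH : ∀ (A' B' : Set V) (i' j' k' : V), A'.ncard < A.ncard → ¬ Kp G U A' B' i' j' k')
    (hc : (s ≠ i ∧ s ≠ j ∧ t ≠ i ∧ t ≠ j) ∨ (s = i ∧ t ∈ A)) : False := by
  classical
  have hcase : (s ≠ i ∧ s ≠ j ∧ t ≠ i ∧ t ≠ j) ∨
      (s = i ∧ t ∈ A ∧ ¬ BalIn G (Pt A X0 s t ∪ {j, t})) := by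
    rcases hc with hc | ⟨hc, ht⟩
    · exact Or.inl hc
    · exact Or.inr ⟨hc, ht, v.shared K h hIH hc ht⟩
  have hex := v.ex3 K h.toCB hm hk hmax (v.num3 K h.toCB hIH) hcase
  have hmB : m ∉ A := fun hh => Set.disjoint_left.1 K.disj hh hm
  have hiA : i ∉ A := K.toSep3.notA (Or.inl rfl)
  have hjA : j ∉ A := K.toSep3.notA (Or.inr (Or.inl rfl))
  have hkA : k ∉ A := K.toSep3.notA (Or.inr (Or.inr rfl))
  have hiB : i ∉ B := K.toSep3.notB (Or.inl rfl)
  have hjB : j ∉ B := K.toSep3.notB (Or.inr (Or.inl rfl))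
  have hkB : k ∉ B := K.toSep3.notB (Or.inr (Or.inr rfl))
  have hrU : ∀ l, l = i ∨ l = j ∨ l = k → l ∈ U := fun l hl => K.toSep3.rootU h.edge_mem hl
  have hSD : Disjoint (Pt A X0 s t ∪ {i, j, s, t}) B := by
    rw [Set.disjoint_left]
    rintro x (hx | hx | hx | hx | hx) hxB
    · exact Set.disjoint_left.1 K.disj hx.1 hxB
    · exact hiB (hx ▸ hxB)
    · exact hjB (hx ▸ hxB)
    · exact v.sB K (hx ▸ hxB)
    · exact v.tB K (hx ▸ hxB)
  have hSQ : Disjoint (Pt A X0 s t ∪ {i, j, s, t}) (insert k X0) := by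
    rw [Set.disjoint_left]
    rintro x (hx | hx | hx | hx | hx) (hxQ | hxQ)
    · exact hkA (hxQ ▸ hx.1)
    · exact hx.2 (Or.inl hxQ)
    · exact K.ik (hx.symm.trans hxQ)
    · exact hiA (v.sub (hx ▸ hxQ))
    · exact K.jk (hx.symm.trans hxQ)
    · exact hjA (v.sub (hx ▸ hxQ))
    · exact v.ks K (hx.symm.trans hxQ)
    · exact v.sX (hx ▸ hxQ)
    · exact v.kt K (hx.symm.trans hxQ)
    · exact v.tX (hx ▸ hxQ)
  have hDQ : Disjoint B (insert k X0) := by
    rw [Set.disjoint_left]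
    rintro x hx (hxQ | hxQ)
    · exact hkB (hxQ ▸ hx)
    · exact Set.disjoint_left.1 K.disj (v.sub hxQ) hx
  have hlt : (psiU (Pt A X0 s t) i j s t m k).ncard < U.ncard := by
    apply Set.ncard_lt_ncard _ (Set.toFinite _)
    obtain ⟨x0, hx0⟩ := v.ne
    have hsub : psiU (Pt A X0 s t) i j s t m k ⊆ U := by
      rintro x ((hx | hx | hx | hx | hx) | hx | hx)
      · exact K.AU hx.1
      · exact hrU x (Or.inl hx)
      · exact hrU x (Or.inr (Or.inl hx))
      · rcases v.sA with h1 | h1 | h1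
        · rw [hx]; exact K.AU h1
        · exact hrU x (Or.inl (hx.trans h1))
        · exact hrU x (Or.inr (Or.inl (hx.trans h1)))
      · rw [Set.mem_singleton_iff] at hx
        rcases v.tA with h1 | h1 | h1
        · rw [hx]; exact K.AU h1
        · exact hrU x (Or.inl (hx.trans h1))
        · exact hrU x (Or.inr (Or.inl (hx.trans h1)))
      · rw [hx]; exact K.BU hm
      · rw [Set.mem_singleton_iff] at hx
        exact hrU x (Or.inr (Or.inr hx))
    refine ⟨hsub, fun hU => ?_⟩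
    rcases hU (K.AU (v.sub hx0)) with h1 | h1 | h1
    · exact Set.disjoint_left.1 hSQ h1 (Or.inr hx0)
    · exact Set.disjoint_left.1 hDQ hm (Or.inr (h1 ▸ hx0))
    · rw [Set.mem_singleton_iff] at h1
      exact v.kX K (h1 ▸ hx0)
  refine h.noT (lift_two hSD hSQ hDQ (Or.inr (Or.inl rfl)) (Or.inr (Or.inr (Or.inl rfl)))
    (Or.inr (Or.inr (Or.inr (Or.inl rfl)))) (Or.inr (Or.inr (Or.inr (Or.inr rfl)))) K.ij v.st hm
    (Or.inl rfl) (fun t0 => K.linkB h.toCB t0) (fun t0 => v.flex K h.toCB hk t0)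
    (h.IH _ _ hex hlt))

/-- A maximal violation gives a contradiction. -/
lemma Vio.kill' [Finite V] (v : Vio G A B i j k s t X0) (K : Kp G U A B i j k) (h : CI G U)
    (hm : m ∈ B) (hk : TwoOut G B k)
    (hmax : ∀ s' t' X', Vio G A B i j k s' t' X' → X0 ⊆ X' → X' = X0)
    (hIH : ∀ (A' B' : Set V) (i' j' k' : V), A'.ncard < A.ncard → ¬ Kp G U A' B' i' j' k') :
    False := by
  have hmax' : ∀ s' t' X', Vio G A B j i k s' t' X' → X0 ⊆ X' → X' = X0 :=
    fun s' t' X' v' hX => hmax s' t' X' v'.swap_ij hX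
  have hiA : i ∉ A := K.toSep3.notA (Or.inl rfl)
  have hjA : j ∉ A := K.toSep3.notA (Or.inr (Or.inl rfl))
  have hst := v.st
  rcases v.sA with h1 | h1 | h1
  · rcases v.tA with h2 | h2 | h2
    · refine v.kill K h hm hk hmax hIH (Or.inl ⟨?_, ?_, ?_, ?_⟩)
      · rintro rfl; exact hiA h1
      · rintro rfl; exact hjA h1
      · rintro rfl; exact hiA h2
      · rintro rfl; exact hjA h2
    · exact v.swap_st.kill K h hm hk hmax hIH (Or.inr ⟨h2, h1⟩)
    · exact v.swap_st.swap_ij.kill K.swap h hm hk hmax' hIH (Or.inr ⟨h2, h1⟩)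
  · rcases v.tA with h2 | h2 | h2
    · exact v.kill K h hm hk hmax hIH (Or.inr ⟨h1, h2⟩)
    · exact hst (h1.trans h2.symm)
    · rcases v.nij with h3 | h3
      · exact h3.1 h1.symm
      · exact h3.2 h2.symm
  · rcases v.tA with h2 | h2 | h2
    · exact v.swap_ij.kill K.swap h hm hk hmax' hIH (Or.inr ⟨h1, h2⟩)
    · rcases v.nij with h3 | h3
      · exact h3.2 h2.symm
      · exact h3.1 h1.symm
    · exact hst (h1.trans h2.symm)

/-- **The phi theorem**: nothing can be kept. -/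
theorem Kp.false [Finite V] (K : Kp G U A B i j k) (h : CI G U) : False := by
  classical
  suffices hall : ∀ n, ∀ (A B : Set V) (i j k : V), A.ncard = n → ¬ Kp G U A B i j k from
    hall _ A B i j k rfl K
  intro n
  induction n using Nat.strong_induction_on with
  | _ n ih =>
    intro A B i j k hn K
    have hIH : ∀ (A' B' : Set V) (i' j' k' : V), A'.ncard < A.ncard → ¬ Kp G U A' B' i' j' k' :=
      fun A' B' i' j' k' hlt => ih A'.ncard (hn ▸ hlt) A' B' i' j' k' rfl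
    by_cases hk : TwoOut G B k
    · obtain ⟨m, hm⟩ : B.Nonempty := by
        have := K.B2
        rw [← Set.ncard_pos (Set.toFinite _)]; omega
      by_cases hc : ConnP (phiG G A i j k m) (phiU A i j k m)
      · exact K.false_of_conn h hm hk hc
      · obtain ⟨s, t, X0, v⟩ := K.vio h.toCB hm hk hc
        obtain ⟨X1, ⟨s', t', v'⟩, hmx⟩ := (Set.toFinite {X' : Set V | ∃ s' t',
          Vio G A B i j k s' t' X'}).exists_maximal ⟨X0, s, t, v⟩
        exact v'.kill' K h hm hk (fun s2 t2 X2 v2 hX => (hmx ⟨s2, t2, v2⟩ hX).antisymm hX) hIH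
    · obtain ⟨s, hs, K'⟩ := K.pendant h.toCB hk
      refine hIH _ _ _ _ _ ?_ K'
      apply Set.ncard_lt_ncard _ (Set.toFinite _)
      exact ⟨Set.sdiff_subset, fun hh => (hh hs).2 rfl⟩

/-- `Keep` gives `Kp`. -/
lemma Kp.of_keep (K : Keep G U A B i j k) : Kp G U A B i j k where
  toSep3 := K.toSep3
  Bk := K.Bk
  Ai := fun hb => K.Ai (hb.rapex K.toSep3.rot)
  Aj := fun hb => K.Aj (hb.rapex K.toSep3.rot.rot.swap)
  num := K.num

/-- The base facts for a minimal counterexample of minimum degree three. -/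
theorem CI.of_gmin [Finite V] (hM : GMin G U) (hdeg : ∀ y ∈ U, 3 ≤ (G.neighborSet y).ncard) :
    CI G U where
  toCB := CB.of_gmin hM hdeg (fun Y hY h2 κ hb => by
    by_contra hlt
    obtain ⟨r1, h1, r2, hh2, hne⟩ := (Set.one_lt_ncard (Set.toFinite _)).1 h2
    exact gmin_no_two_real hM hY hb (by omega) h1 hh2 hne (hdeg _ (hY h1)) (hdeg _ (hY hh2)))
  IH := fun G' U' hex hlt => hM.IH G' U' hex (Or.inl hlt)

/-- **The phi theorem** for a minimal counterexample of minimum degree three. -/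
theorem phi [Finite V] (hM : GMin G U) (hdeg : ∀ y ∈ U, 3 ≤ (G.neighborSet y).ncard)
    (A B : Set V) (i j k : V) : ¬ Keep G U A B i j k :=
  fun K => (Kp.of_keep K).false (CI.of_gmin hM hdeg)

/-- The world (2,2,0). -/
theorem world [Finite V] (hM : GMin G U) (hdeg : ∀ y ∈ U, 3 ≤ (G.neighborSet y).ncard) :
    Pool.Agent.Helper95.SEP.World G U := by
  have key : ∀ Y ⊆ U, 2 ≤ Y.ncard → (Nb G Y).ncard = 3 → 2 ≤ (U \ (Y ∪ Nb G Y)).ncard →
      2 ≤ fden G Y ∧ ∀ l ∈ Nb G Y, ¬ RApex G Y l := by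
    intro Y hY h2 h3 hr
    obtain ⟨i, j, k, hij, hik, hjk, hN⟩ := Set.ncard_eq_three.1 h3
    have hs := Sep3.of_set hM.ex.edge_mem hM.ex.conn hY h2 hN hij hik hjk hr
    obtain ⟨w1, -, -, ⟨w4, w5, w6⟩, -⟩ := hs.world (CI.of_gmin hM hdeg).toCB (phi hM hdeg)
    refine ⟨w1.ge, ?_⟩
    intro l hl
    rw [hN] at hl
    rcases hl with hl | hl | hl
    · rw [hl]; exact w4
    · rw [hl]; exact w5
    · rw [Set.mem_singleton_iff] at hl
      rw [hl]; exact w6
  exact ⟨hM, hdeg, fun Y hY h2 h3 hr => (key Y hY h2 h3 hr).1,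
    fun Y hY h2 h3 hr l hl κ hκ => (key Y hY h2 h3 hr).2 l hl ⟨κ, hκ⟩⟩

/-- **No nontrivial 3-separation.** -/
theorem cut [Finite V] (hM : GMin G U) (hdeg : ∀ y ∈ U, 3 ≤ (G.neighborSet y).ncard) :
    Cut G U :=
  (world hM hdeg).cut

end Pool.Agent.Helper1.PHI
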