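import Pool.Agent.Helper75.SEP.Phi2

/-!
# [A] Lemma M (helper75, helper97)

Membership of `phiG` in `Ex3` given connectivity and `TwoOut`, then the lift (`lift_in`, links from
`flex'`). Text: section 0 of phi_MP_3f61ad_co_helper1.md; `PP.main` for the sets with `k` only.
-/

set_option autoImplicit false

namespace Pool.Agent.Helper1.PHI

open SimpleGraph Pool.Agent.Helper57.TOK Pool.Agent.Helper57.TD Pool.Agent.Helper57.TOP
  Pool.Agent.Helper82.TK Pool.Agent.Helper51.GX Pool.Agent.Helper75.SEP Pool.Agent.Helper1.SEP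

variable {V : Type*} {G : SimpleGraph V} {U A B : Set V} {i j k m : V}

theorem Kp.false_of_conn [Finite V] (K : Kp G U A B i j k) (h : CI G U) (hm : m ∈ B)
    (hk : TwoOut G B k) (hc : ConnP (phiG G A i j k m) (phiU A i j k m)) : False :=
  Kp.false_of_conn' K h hm hk hc

end Pool.Agent.Helper1.PHI
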