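import Pool.Agent.Helper95.PHI.Core

/-!
# [B] Where connectivity can fail

`Kp.pendant`: `k` has only one neighbour outside `B`: it lies in `A` and a smaller tuple exists.
`Kp.vio`: a violation of `ConnP (phiG ..)` gives a `Vio`. `Kp.tri`: no violation if `k ~ i, j`.
Text: section 1 of phi_MP_3f61ad_co_helper1.md.
-/

set_option autoImplicit false

namespace Pool.Agent.Helper1.PHI

open SimpleGraph Pool.Agent.Helper57.TOK Pool.Agent.Helper57.TD Pool.Agent.Helper57.TOP
  Pool.Agent.Helper82.TK Pool.Agent.Helper51.GX Pool.Agent.Helper75.SEP Pool.Agent.Helper1.SEP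
  Pool.Agent.Helper95.PHI

variable {V : Type*} {G : SimpleGraph V} {U A B : Set V} {i j k m : V}

theorem Kp.pendant [Finite V] (K : Kp G U A B i j k) (h : CB G U) (hk : ¬ TwoOut G B k) :
    ∃ s ∈ A, Kp G U (A \ {s}) (insert k B) i j s := by
  classical
  have S := K.toSep3
  have hkA : k ∉ A := S.notA (Or.inr (Or.inr rfl))
  have hiA : i ∉ A := S.notA (Or.inl rfl)
  have hjA : j ∉ A := S.notA (Or.inr (Or.inl rfl))
  have hkB : k ∉ B := S.notB (Or.inr (Or.inr rfl))
  have hiB : i ∉ B := S.notB (Or.inl rfl)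
  have hjB : j ∉ B := S.notB (Or.inr (Or.inl rfl))
  have hAB : ∀ u, u ∈ A → u ∉ B := fun u hu => Set.disjoint_left.1 S.disj hu
  have hkN : k ∈ Nb G A := by rw [S.NA]; exact Or.inr (Or.inr rfl)
  obtain ⟨-, s, hsA, hsk⟩ := hkN
  have hall : ∀ x, G.Adj k x → x = s ∨ x ∈ B := by
    intro x hx
    by_contra hcon
    push Not at hcon
    exact hk ⟨s, x, fun h1 => hcon.1 h1.symm, hsk.symm, hx, hAB s hsA, hcon.2⟩
  have hki : ¬ G.Adj k i := fun h1 => by
    rcases hall i h1 with h2 | h2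
    · exact hiA (h2 ▸ hsA)
    · exact hiB h2
  have hkj : ¬ G.Adj k j := fun h1 => by
    rcases hall j h1 with h2 | h2
    · exact hjA (h2 ▸ hsA)
    · exact hjB h2
  have hsi : s ≠ i := fun h1 => hiA (h1 ▸ hsA)
  have hsj : s ≠ j := fun h1 => hjA (h1 ▸ hsA)
  have hskne : s ≠ k := hsk.ne
  have hsB : s ∉ B := hAB s hsA
  have hAne : (A \ {s}).Nonempty := by
    obtain ⟨x, hx, hxs⟩ := Set.exists_ne_of_one_lt_ncard S.A2 s
    exact ⟨x, hx, hxs⟩
  have hc3 : ({i, j, s} : Set V).ncard = 3 :=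
    Set.ncard_eq_three.2 ⟨i, j, s, S.ij, hsi.symm, hsj.symm, rfl⟩
  have hNA : Nb G (A \ {s}) = {i, j, s} := by
    refine Set.eq_of_subset_of_ncard_le ?_ ?_ (Set.toFinite _)
    · rintro v ⟨hv, u, hu, huv⟩
      rcases S.nbA hu.1 huv with h1 | h1 | h1 | h1
      · right; right
        by_contra h2
        exact hv ⟨h1, h2⟩
      · exact Or.inl h1
      · exact Or.inr (Or.inl h1)
      · exfalso
        rw [h1] at huv
        rcases hall u huv.symm with h2 | h2
        · exact hu.2 h2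
        · exact hAB u hu.1 h2
    · rw [hc3]
      exact three_nb S h Set.sdiff_subset hAne
  have hf : fden G A = fden G (A \ {s}) + rr G s i + rr G s j - 1 := by
    have h1 : A = insert s (A \ {s}) := by
      rw [Set.insert_sdiff_singleton, Set.insert_eq_of_mem hsA]
    have h2 := fden_insert G (y := s) (Y := A \ {s}) (fun h3 => h3.2 rfl)
    rw [← h1] at h2
    have h3 : ((G.neighborSet s \ (A \ {s})).ncard : ℤ) = ∑ c ∈ ({i, j, k} : Finset V), rr G s c := by
      refine cnt ?_ ?_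
      · intro v hv
        rcases S.nbA hsA hv with h4 | h4 | h4 | h4
        · exact Or.inl ⟨h4, fun h5 => hv.ne h5.symm⟩
        · right; simp [h4]
        · right; simp [h4]
        · right; simp [h4]
      · intro v hv
        simp only [Finset.mem_insert, Finset.mem_singleton] at hv
        rcases hv with h4 | h4 | h4
        · rw [h4]; exact fun h5 => hiA h5.1
        · rw [h4]; exact fun h5 => hjA h5.1
        · rw [h4]; exact fun h5 => hkA h5.1
    rw [Finset.sum_insert (by simp [S.ij, S.ik]), Finset.sum_insert (by simp [S.jk]),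
      Finset.sum_singleton, rr_pos hsk] at h3
    rw [h2, h3]
    ring
  have hnum := K.num
  have e1 : eL G i j k = rr G i j := by
    unfold eL
    rw [rr_neg (fun h1 => hki h1.symm), rr_neg (fun h1 => hkj h1.symm)]
    ring
  have e2 : eL G i j s = rr G i j + rr G s i + rr G s j := by
    unfold eL
    rw [rr_comm G s i, rr_comm G s j]
  have hnum' : 4 ≤ fden G (A \ {s}) + eL G i j s - rr G i j := by
    rw [e1] at hnum
    rw [e2]
    linarith
  refine ⟨s, hsA, ⟨⟨?_, ?_, hNA, ?_, S.ij, hsi.symm, hsj.symm, ?_, ?_, ?_, ?_⟩, ?_, ?_, ?_, ?_⟩⟩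
  · exact fun u hu => S.AU hu.1
  · rintro u (hu | hu)
    · rw [hu]; exact h.edge_mem k s hsk.symm
    · exact S.BU hu
  · apply Set.Subset.antisymm
    · rintro v ⟨hv, u, hu, huv⟩
      rcases hu with hu | hu
      · rw [hu] at huv
        rcases hall v huv with h1 | h1
        · exact Or.inr (Or.inr h1)
        · exact absurd (Or.inr h1) hv
      · rcases S.nbB hu huv with h1 | h1 | h1 | h1
        · exact absurd (Or.inr h1) hv
        · exact Or.inl h1
        · exact Or.inr (Or.inl h1)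
        · exact absurd (Or.inl h1) hv
    · rintro v (hv | hv | hv)
      · rw [hv]
        refine ⟨?_, ?_⟩
        · rintro (h1 | h1)
          · exact S.ik h1
          · exact hiB h1
        · have h1 : i ∈ Nb G B := by rw [S.NB]; exact Or.inl rfl
          obtain ⟨-, u, hu, hui⟩ := h1
          exact ⟨u, Or.inr hu, hui⟩
      · rw [hv]
        refine ⟨?_, ?_⟩
        · rintro (h1 | h1)
          · exact S.jk h1
          · exact hjB h1
        · have h1 : j ∈ Nb G B := by rw [S.NB]; exact Or.inr (Or.inl rfl)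
          obtain ⟨-, u, hu, hui⟩ := h1
          exact ⟨u, Or.inr hu, hui⟩
      · rw [hv]
        refine ⟨?_, k, Or.inl rfl, hsk.symm⟩
        rintro (h1 | h1)
        · exact hskne h1
        · exact hsB h1
  · intro u hu
    rcases S.cov u hu with h1 | h1 | h1 | h1 | h1
    · by_cases h2 : u = s
      · exact Or.inr (Or.inr (Or.inr (Or.inr h2)))
      · exact Or.inl ⟨h1, h2⟩
    · exact Or.inr (Or.inl (Or.inr h1))
    · exact Or.inr (Or.inr (Or.inl h1))
    · exact Or.inr (Or.inr (Or.inr (Or.inl h1)))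
    · exact Or.inr (Or.inl (Or.inl h1))
  · rw [Set.disjoint_left]
    rintro u hu (h1 | h1)
    · exact hkA (h1 ▸ hu.1)
    · exact hAB u hu.1 h1
  · by_contra hcon
    have h1 : (A \ {s}).ncard = 1 := by
      have := hAne.ncard_pos
      omega
    obtain ⟨x, hx⟩ := Set.ncard_eq_one.1 h1
    have h2 : fden G (A \ {s}) ≤ 1 := by
      rw [hx]
      unfold fden
      rw [rho_singleton, Set.ncard_singleton]
      have h3 : G.neighborSet x ⊆ {i, j, s} := by
        rw [← hNA, hx]
        intro v hv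
        exact ⟨fun h5 => hv.ne (by rw [h5]), x, rfl, hv⟩
      have h4 := Set.ncard_le_ncard h3 (Set.toFinite _)
      rw [hc3] at h4
      push_cast
      omega
    rw [e2] at hnum'
    have h3 := rr_cases G s i
    have h4 := rr_cases G s j
    omega
  · have h1 : B ⊆ insert k B := Set.subset_insert _ _
    exact S.B2.trans (Set.ncard_le_ncard h1 (Set.toFinite _))
  · rintro ⟨κ, hκ⟩
    refine K.Bk ⟨κ, ?_⟩
    intro u v hu hv huv
    refine hκ u v (Or.inr hu) ?_ huv
    intro h1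
    rcases S.nbB hu huv with h2 | h2 | h2 | h2
    · exact hsB (h1 ▸ h2)
    · exact hsi (h1 ▸ h2)
    · exact hsj (h1 ▸ h2)
    · exact hv h2
  · exact fun h1 => K.Ai (ext_pendant hsA hall hkB hkA hAB hjB S.jk h1)
  · exact fun h1 => K.Aj (ext_pendant hsA hall hkB hkA hAB hiB S.ik h1)
  · linarith

/-- Normal form of a violating set which contains `k` and misses `i`, `j`, `m` (general form, for
the maximality argument of [E] as well). -/
theorem Kp.vio_of_set [Finite V] (K : Kp G U A B i j k) (h : CB G U) (hm : m ∈ B)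
    {Y : Set V} (hY : Y ⊆ phiU A i j k m) (hY2 : 2 ≤ Y.ncard)
    (hN : (Nb (phiG G A i j k m) Y).ncard ≤ 2)
    (hr : 2 ≤ (phiU A i j k m \ (Y ∪ Nb (phiG G A i j k m) Y)).ncard) (hk : k ∈ Y)
    (hi : i ∉ Y) (hj : j ∉ Y) (hmY : m ∉ Y) (hk2 : TwoOut G B k) :
    ∃ s t, Vio G A B i j k s t (Y \ {k}) ∧ Nb (phiG G A i j k m) Y = {s, t} := by
  classical
  obtain ⟨-, s, t, hC, v⟩ := core K.toSep3 h hY hi hj hmY hY2 hN
    (fun u hu v huv => by
      by_cases h1 : v ∈ Y
      · exact Or.inl h1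
      · exact Or.inr ⟨h1, u, hu, huv⟩)
    (fun w hw => hw.1) hr (fun w hw => ⟨fun h1 => hw.2 (Or.inl h1), fun h1 => hw.2 (Or.inr h1)⟩)
  exact ⟨s, t, v, hC⟩

theorem Kp.vio [Finite V] (K : Kp G U A B i j k) (h : CB G U) (hm : m ∈ B)
    (hk : TwoOut G B k) (hc : ¬ ConnP (phiG G A i j k m) (phiU A i j k m)) :
    ∃ s t X0, Vio G A B i j k s t X0 := by
  classical
  unfold ConnP at hc
  push Not at hc
  obtain ⟨Y, hY, hY2, hN, hr⟩ := hc
  have hmi : m ≠ i := fun h1 => K.toSep3.notB (Or.inl rfl) (h1 ▸ hm)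
  have hmj : m ≠ j := fun h1 => K.toSep3.notB (Or.inr (Or.inl rfl)) (h1 ▸ hm)
  by_cases hT : i ∉ Y ∧ j ∉ Y ∧ m ∉ Y
  · obtain ⟨-, s, t, hC, v⟩ := core K.toSep3 h hY hT.1 hT.2.1 hT.2.2 hY2 hN
      (fun u hu v huv => by
        by_cases h1 : v ∈ Y
        · exact Or.inl h1
        · exact Or.inr ⟨h1, u, hu, huv⟩)
      (fun w hw => hw.1) hr
      (fun w hw => ⟨fun h1 => hw.2 (Or.inl h1), fun h1 => hw.2 (Or.inr h1)⟩)
    exact ⟨s, t, _, v⟩
  · have hy : ∃ y ∈ Y, y = i ∨ y = j ∨ y = m := by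
      by_contra hcon
      push Not at hcon
      exact hT ⟨fun h1 => (hcon i h1).1 rfl, fun h1 => (hcon j h1).2.1 rfl,
        fun h1 => (hcon m h1).2.2 rfl⟩
    obtain ⟨y, hyY, hy⟩ := hy
    set R := phiU A i j k m \ (Y ∪ Nb (phiG G A i j k m) Y) with hR
    have hno : ∀ r, (r = i ∨ r = j ∨ r = m) → r ∉ R := by
      intro r hr' hrR
      by_cases h1 : y = r
      · exact hrR.2 (Or.inl (h1 ▸ hyY))
      · exact hrR.2 (Or.inr ⟨fun h2 => hrR.2 (Or.inl h2), y, hyY,
          phiG_tri K.ij hmi hmj hy hr' h1⟩)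
    obtain ⟨-, s, t, hC, v⟩ := core K.toSep3 h (X := R) (C := Nb (phiG G A i j k m) Y) (W := Y)
      (fun u hu => hu.1) (hno i (Or.inl rfl)) (hno j (Or.inr (Or.inl rfl)))
      (hno m (Or.inr (Or.inr rfl))) (by omega) hN
      (fun u hu v huv => by
        by_cases h1 : v ∈ Nb (phiG G A i j k m) Y
        · exact Or.inr h1
        · left
          refine ⟨phiG_mem huv, ?_⟩
          rintro (h2 | h2)
          · exact hu.2 (Or.inr ⟨fun h3 => hu.2 (Or.inl h3), v, h2, huv.symm⟩)
          · exact h1 h2)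
      hY hY2 (fun w hw => ⟨fun h1 => h1.2 (Or.inl hw), fun h1 => h1.1 hw⟩)
    exact ⟨s, t, _, v⟩

/-- `k ~ i, j`: no violation. -/
theorem Kp.tri [Finite V] (K : Kp G U A B i j k) (h : CB G U) (hm : m ∈ B)
    (hki : G.Adj k i) (hkj : G.Adj k j) : ConnP (phiG G A i j k m) (phiU A i j k m) := by
  classical
  have hk : TwoOut G B k := ⟨i, j, K.ij, hki, hkj, K.toSep3.notB (Or.inl rfl),
    K.toSep3.notB (Or.inr (Or.inl rfl))⟩
  by_contra hc
  obtain ⟨s, t, X0, v⟩ := K.vio h hm hk hc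
  have hiX : i ∉ X0 := fun hh => K.toSep3.notA (Or.inl rfl) (v.sub hh)
  have hjX : j ∉ X0 := fun hh => K.toSep3.notA (Or.inr (Or.inl rfl)) (v.sub hh)
  have h1 : i = s ∨ i = t := by
    rcases v.nk i hki with h3 | h3 | h3
    · exact absurd h3 (K.toSep3.notB (Or.inl rfl))
    · exact absurd h3 hiX
    · exact h3
  have h2 : j = s ∨ j = t := by
    rcases v.nk j hkj with h3 | h3 | h3
    · exact absurd h3 (K.toSep3.notB (Or.inr (Or.inl rfl)))
    · exact absurd h3 hjX
    · exact h3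
  rcases v.nij with h3 | h3
  · rcases h1 with h1 | h1
    · exact h3.1 h1
    · exact h3.2 h1
  · rcases h2 with h2 | h2
    · exact h3.1 h2
    · exact h3.2 h2

end Pool.Agent.Helper1.PHI
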