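import Pool.Agent.Helper1.PHI.Tools
import Pool.Agent.Helper1.PHI.StubA
import Pool.Agent.Helper1.PHI.StubB
import Pool.Agent.Helper1.PHI.Ident

/-!
# [F] The shared case

`s = i`, `t` in `A`: the part `P` with `j`, `t` is not balanced.
-/

set_option autoImplicit false

namespace Pool.Agent.Helper1.PHI

open SimpleGraph Pool.Agent.Helper57.TOK Pool.Agent.Helper57.TD Pool.Agent.Helper57.TOP
  Pool.Agent.Helper82.TK Pool.Agent.Helper51.GX Pool.Agent.Helper75.SEP Pool.Agent.Helper1.SEP
  Pool.Agent.Helper73.C3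

variable {V : Type*} {G : SimpleGraph V} {U A B X0 : Set V} {i j k s t : V}

/-- Lemma M with the third root adjacent to both others. -/
theorem Kp.false_of_tri [Finite V] (K : Kp G U A B i j k) (h : CI G U)
    (hki : G.Adj k i) (hkj : G.Adj k j) : False := by
  obtain ⟨m, hm⟩ : B.Nonempty := by
    rw [← Set.ncard_pos (Set.toFinite _)]
    have := K.B2
    omega
  exact K.false_of_conn h hm ⟨i, j, K.ij, hki, hkj, K.toSep3.notB (Or.inl rfl),
    K.toSep3.notB (Or.inr (Or.inl rfl))⟩ (K.tri h.toCB hm hki hkj)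

/-- The odd link between `s` and `t` outside a cubic vertex `u` and `k`. -/
lemma link_out [Finite V] (h : CB G U) (K : Kp G U A B i j k) (v : Vio G A B i j k s t X0)
    {u : V} (hu : X0 = {u}) (hus : G.Adj u s) (hut : G.Adj u t) (huk : G.Adj u k) :
    ∃ R : G.Walk s t, R.IsPath ∧ wt (fun _ => (1 : ZMod 2)) R = 1 ∧ u ∉ R.support ∧
      k ∉ R.support := by
  classical
  set D : Set V := U \ {u, s, t, k} with hD
  have huX : u ∈ X0 := by rw [hu]; rfl
  have huU : u ∈ U := K.AU (v.sub huX)
  have hnbu : ∀ w, G.Adj u w → w = s ∨ w = t ∨ w = k := by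
    intro w hw
    rcases v.nb u huX w hw with h4 | h4 | h4 | h4
    · rw [hu, Set.mem_singleton_iff] at h4
      exact absurd h4.symm hw.ne
    · exact Or.inr (Or.inr h4)
    · exact Or.inl h4
    · exact Or.inr (Or.inl h4)
  have hBD : B ⊆ D := by
    intro x hx
    refine ⟨K.BU hx, ?_⟩
    rintro (h3 | h3 | h3 | h3)
    · exact Set.disjoint_left.1 K.disj (v.sub huX) (h3 ▸ hx)
    · exact v.sB K (h3 ▸ hx)
    · exact v.tB K (h3 ▸ hx)
    · exact K.toSep3.notB (Or.inr (Or.inr rfl)) (h3 ▸ hx)
  have hND : Nb G D ⊆ {s, t, k} := by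
    rintro w ⟨hw, x, hx, hxw⟩
    have hwU := h.edge_mem w x hxw.symm
    have h1 : w ∈ ({u, s, t, k} : Set V) := by
      by_contra hh
      exact hw ⟨hwU, hh⟩
    rcases h1 with h1 | h1
    · exfalso
      have h2 := hnbu x (by rw [← h1]; exact hxw.symm)
      exact hx.2 (Or.inr h2)
    · exact h1
  have h3 : ({s, t, k} : Set V).ncard = 3 :=
    Set.ncard_eq_three.2 ⟨s, t, k, v.st, v.ks K, v.kt K, rfl⟩
  have hkU : k ∈ U := K.toSep3.rootU h.edge_mem (Or.inr (Or.inr rfl))
  have hsU : s ∈ U := h.edge_mem s u hus.symm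
  have htU : t ∈ U := h.edge_mem t u hut.symm
  have hNeq : Nb G D = {s, t, k} := by
    refine Set.eq_of_subset_of_ncard_le hND ?_ (Set.toFinite _)
    by_contra hcon
    have h4 := h.conn D (fun x hx => hx.1)
      (K.B2.trans (Set.ncard_le_ncard hBD (Set.toFinite _))) (by omega)
    obtain ⟨w, hw, hwN⟩ : ∃ w ∈ ({s, t, k} : Set V), w ∉ Nb G D := by
      by_contra hh
      push Not at hh
      have := Set.ncard_le_ncard (show ({s, t, k} : Set V) ⊆ Nb G D from hh) (Set.toFinite _)
      omega
    have hwU : w ∈ U := by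
      rcases hw with rfl | rfl | rfl
      · exact hsU
      · exact htU
      · exact hkU
    have huw : u ≠ w := by
      rcases hw with rfl | rfl | rfl
      · exact hus.ne
      · exact hut.ne
      · exact huk.ne
    have h5 : ({u, w} : Set V) ⊆ U \ (D ∪ Nb G D) := by
      rintro x (rfl | rfl)
      · refine ⟨huU, ?_⟩
        rintro (h6 | h6)
        · exact h6.2 (Or.inl rfl)
        · rcases hND h6 with h7 | h7 | h7
          · exact hus.ne h7
          · exact hut.ne h7
          · exact huk.ne h7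
      · refine ⟨hwU, ?_⟩
        rintro (h6 | h6)
        · exact h6.2 (Or.inr hw)
        · exact hwN h6
    have h6 := Set.ncard_le_ncard h5 (Set.toFinite _)
    rw [Set.ncard_pair huw] at h6
    omega
  obtain ⟨Q, q1, q2, q3, -⟩ := flex' (c := fun _ => 1) (R := D) (U := U) h.edge_mem h.conn
    (fun x hx => hx.1) hNeq v.st (v.ks K) (v.kt K) ⟨u, huU, by
      rintro (h6 | h6)
      · exact h6.2 (Or.inl rfl)
      · rcases hND h6 with h7 | h7 | h7
        · exact hus.ne h7
        · exact hut.ne h7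
        · exact huk.ne h7⟩ (fun κ hκ => K.Bk (rapex_mono ⟨κ, fun a b ha hb hab =>
      add_eq_one_iff.1 (hκ a b ha hb hab).symm⟩ hBD)) 1
  refine ⟨Q, q1, q2, ?_, fun hh => (q3 k hh).2 rfl⟩
  intro hh
  rcases (q3 u hh).1 with h6 | h6 | h6
  · exact h6.2 (Or.inl rfl)
  · exact hus.ne h6
  · exact hut.ne h6

/-- The shared case. -/
theorem Vio.shared [Finite V] (v : Vio G A B i j k s t X0) (K : Kp G U A B i j k) (h : CI G U)
    (hIH : ∀ (A' B' : Set V) (i' j' k' : V), A'.ncard < A.ncard → ¬ Kp G U A' B' i' j' k')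
    (hs : s = i) (ht : t ∈ A) : ¬ BalIn G (Pt A X0 s t ∪ {j, t}) := by
  classical
  subst hs
  intro hb
  have hid := v.ident' K rfl ht
  have hnum := K.num
  set P := Pt A X0 s t with hP
  have c1 := rr_comm G k s
  have c2 := rr_comm G k t
  have c3 := rr_comm G s t
  have c4 := rr_comm G j t
  have c5 := rr_comm G s j
  have l1 := rr_le_one G k s
  have l2 := rr_le_one G k t
  have l3 := rr_le_one G s t
  have l4 := rr_le_one G j t
  have g3 := rr_nonneg G s t
  have g4 := rr_nonneg G j t
  have sA : s ∉ A := K.toSep3.notA (Or.inl rfl)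
  have jA : j ∉ A := K.toSep3.notA (Or.inr (Or.inl rfl))
  have kA : k ∉ A := K.toSep3.notA (Or.inr (Or.inr rfl))
  have tj : j ≠ t := fun hh => jA (hh ▸ ht)
  have hPA : P ⊆ A := fun x hx => hx.1
  have hPt : t ∉ P := fun hx => hx.2 (Or.inr (Or.inr rfl))
  have hPX : ∀ x ∈ P, x ∉ X0 := fun x hx hh => hx.2 (Or.inl hh)
  -- neighbours of P
  have hPnb : ∀ u ∈ P, ∀ w, G.Adj u w → w ∈ P ∨ w = s ∨ w = j ∨ w = t := by
    intro u hu w huw
    have hus : u ≠ s := fun hh => sA (hh ▸ hPA hu)
    have hut : u ≠ t := fun hh => hPt (hh ▸ hu)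
    rcases K.toSep3.nbA (hPA hu) huw with h1 | h1 | h1 | h1
    · by_cases h2 : w = t
      · exact Or.inr (Or.inr (Or.inr h2))
      by_cases h3 : w = s
      · exact Or.inr (Or.inl h3)
      by_cases h4 : w ∈ X0
      · exfalso
        rcases v.nb w h4 u huw.symm with h5 | h5 | h5 | h5
        · exact hPX u hu h5
        · exact kA (h5 ▸ hPA hu)
        · exact hus h5
        · exact hut h5
      · refine Or.inl ⟨h1, ?_⟩
        rintro (h5 | h5 | h5)
        · exact h4 h5
        · exact h3 h5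
        · exact h2 h5
    · exact Or.inr (Or.inl h1)
    · exact Or.inr (Or.inr (Or.inl h1))
    · exfalso
      rw [h1] at huw
      rcases v.nk u huw.symm with h5 | h5 | h5 | h5
      · exact Set.disjoint_left.1 K.disj (hPA hu) h5
      · exact hPX u hu h5
      · exact hus h5
      · exact hut h5
  -- the side X0 with k and t is not balanced
  have hXkt : ¬ BalIn G (X0 ∪ {t, k}) := by
    rintro ⟨κ2, h2⟩
    obtain ⟨κ1, h1⟩ := hb
    apply K.Ai
    have htX := v.tX
    set κ : V → ZMod 2 := fun x => if x ∈ X0 ∪ {k} then κ2 x + (κ1 t + κ2 t) else κ1 x with hκ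
    have k1 : ∀ x, x ∈ X0 ∪ {k} → κ x = κ2 x + (κ1 t + κ2 t) := fun x hx => by
      rw [hκ]; simp only [if_pos hx]
    have k2 : ∀ x, x ∉ X0 ∪ {k} → κ x = κ1 x := fun x hx => by
      rw [hκ]; simp only [if_neg hx]
    have htXk : t ∉ X0 ∪ {k} := by
      rintro (hh | hh)
      · exact htX hh
      · exact v.kt K hh
    -- an edge from X0 + k
    have e1 : ∀ x y, x ∈ X0 ∪ {k} → y ∈ A ∪ {j, k} → G.Adj x y → κ x ≠ κ y := by
      intro x y hx hy hxy
      have hy' : y ∈ X0 ∪ {k} ∨ y = t := by
        have hys : y ≠ s := by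
          rintro rfl
          rcases hy with hy | hy | hy
          · exact sA hy
          · exact K.ij hy
          · exact K.ik hy
        have hyB : y ∉ B := by
          intro hh
          rcases hy with hy | hy | hy
          · exact Set.disjoint_left.1 K.disj hy hh
          · exact K.toSep3.notB (Or.inr (Or.inl rfl)) (hy ▸ hh)
          · exact K.toSep3.notB (Or.inr (Or.inr rfl)) (hy ▸ hh)
        rcases hx with hx | hx
        · rcases v.nb x hx y hxy with h3 | h3 | h3 | h3
          · exact Or.inl (Or.inl h3)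
          · exact Or.inl (Or.inr h3)
          · exact absurd h3 hys
          · exact Or.inr h3
        · rw [Set.mem_singleton_iff] at hx
          rw [hx] at hxy
          rcases v.nk y hxy with h3 | h3 | h3 | h3
          · exact absurd h3 hyB
          · exact Or.inl (Or.inl h3)
          · exact absurd h3 hys
          · exact Or.inr h3
      have hxm : x ∈ X0 ∪ {t, k} := by
        rcases hx with hx | hx
        · exact Or.inl hx
        · exact Or.inr (Or.inr hx)
      rcases hy' with hy' | hy'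
      · have hym : y ∈ X0 ∪ {t, k} := by
          rcases hy' with hy' | hy'
          · exact Or.inl hy'
          · exact Or.inr (Or.inr hy')
        rw [k1 x hx, k1 y hy']
        exact fun hh => h2 x y hxm hym hxy (add_right_cancel hh)
      · have hym : y ∈ X0 ∪ {t, k} := Or.inr (Or.inl hy')
        have hyn : y ∉ X0 ∪ {k} := by rw [hy']; exact htXk
        rw [k1 x hx, k2 y hyn]
        intro hh
        apply h2 x y hxm hym hxy
        rw [hy'] at hh ⊢
        have h5 : κ2 x + (κ1 t + κ2 t) + (κ1 t + κ2 t) = κ1 t + (κ1 t + κ2 t) := by rw [hh]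
        rw [add_assoc, zz, add_zero, ← add_assoc, zz, zero_add] at h5
        exact h5
    refine ⟨κ, ?_⟩
    intro x y hx hy hxy
    by_cases hxX : x ∈ X0 ∪ {k}
    · exact e1 x y hxX hy hxy
    by_cases hyX : y ∈ X0 ∪ {k}
    · exact (e1 y x hyX hx hxy.symm).symm
    have hmem : ∀ z, z ∈ A ∪ {j, k} → z ∉ X0 ∪ {k} → z ∈ P ∪ {j, t} := by
      intro z hz hzX
      by_cases hzt : z = t
      · exact Or.inr (Or.inr hzt)
      rcases hz with hz | hz | hz
      · refine Or.inl ⟨hz, ?_⟩
        rintro (h5 | h5 | h5)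
        · exact hzX (Or.inl h5)
        · exact sA (h5 ▸ hz)
        · exact hzt h5
      · exact Or.inr (Or.inl hz)
      · exact absurd (Or.inr hz) hzX
    rw [k2 x hxX, k2 y hyX]
    exact h1 x y (hmem x hx hxX) (hmem y hy hyX) hxy
  -- the part P
  have hPlt : P.ncard < A.ncard := by
    apply Set.ncard_lt_ncard _ (Set.toFinite _)
    exact ⟨hPA, fun hh => hPt (hh ht)⟩
  have hPsep : 2 ≤ P.ncard → ∃ D, Sep3 G U P D s j t := by
    intro h2
    have hr : 2 ≤ (U \ (P ∪ {s, j, t})).ncard := by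
      refine K.B2.trans (Set.ncard_le_ncard ?_ (Set.toFinite _))
      intro x hx
      refine ⟨K.BU hx, ?_⟩
      rintro (h3 | h3 | h3 | h3)
      · exact Set.disjoint_left.1 K.disj (hPA h3) hx
      · exact v.sB K (h3 ▸ hx)
      · exact K.toSep3.notB (Or.inr (Or.inl rfl)) (h3 ▸ hx)
      · exact v.tB K (h3 ▸ hx)
    obtain ⟨D, hD, -⟩ := sep_of h.toCB (hPA.trans K.AU) h2 hPnb K.ij v.st tj hr
    exact ⟨D, hD⟩
  have hPsingle : ¬ 2 ≤ P.ncard → P.Nonempty → ∃ p, P = {p} ∧ G.Adj p s ∧ G.Adj p j ∧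
      G.Adj p t ∧ fden G P = 1 := by
    intro h1 hne
    have hpos : 0 < P.ncard := (Set.ncard_pos (Set.toFinite _)).2 hne
    obtain ⟨u, hu⟩ := Set.ncard_eq_one.1 (show P.ncard = 1 by omega)
    have huP : u ∈ P := by rw [hu]; rfl
    have h3 := single_of (i := s) (j := j) (k := t) h.toCB (K.AU (hPA huP)) (by
      intro w hw
      rcases hPnb u huP w hw with h4 | h4
      · rw [hu, Set.mem_singleton_iff] at h4
        exact absurd h4.symm hw.ne
      · exact h4)
    exact ⟨u, hu, h3.1, h3.2.1, h3.2.2.1, by rw [hu]; exact h3.2.2.2⟩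
  have hPapex : ∀ D, Sep3 G U P D s j t → RApex G P s := fun D hD => hb.rapex hD.rot
  have hPf : fden G P ≤ 1 := by
    by_cases h2 : 2 ≤ P.ncard
    · obtain ⟨D, hD⟩ := hPsep h2
      exact rapex_le_one hD h.toCB (hPapex D hD)
    · by_cases hne : P.Nonempty
      · obtain ⟨p, -, -, -, -, h3⟩ := hPsingle h2 hne
        omega
      · rw [Set.not_nonempty_iff_eq_empty] at hne
        rw [hne, fden_empty]
        norm_num
  by_cases hb3 : 3 ≤ fden G X0 + rr G k s + rr G k t
  · by_cases h2 : 2 ≤ X0.ncard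
    · obtain ⟨D, hD, hBD⟩ := v.sep K h.toCB h2
      by_cases a1 : BalIn G (X0 ∪ {s, k})
      · have ha : RApex G X0 t := a1.rapex hD.rot.rot.swap
        have hf := rapex_le_one hD.swap h.toCB ha
        rcases rr_cases G s t with e | e
        · have K' : Kp G U D X0 s t k := Kp.of_del hD h.toCB (Or.inr ha) hf e
          exact K'.false_of_tri h (rr_one (by omega)) (rr_one (by omega))
        · refine hIH X0 D k s t v.lt (Kp.of_apex hD.rot.rot h.toCB ha ?_)
          unfold eL
          omega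
      · refine hIH X0 D s t k v.lt ⟨hD, fun hh => K.Bk (rapex_mono hh hBD), hXkt, a1, ?_⟩
        unfold eL
        omega
    · obtain ⟨u, hu, h3, h4, h5, h6⟩ := v.single K h.toCB h2
      have e1 : G.Adj k s := rr_one (by omega)
      have e2 : G.Adj k t := rr_one (by omega)
      obtain ⟨R, r1, r2, r3, r4⟩ := link_out h.toCB K v hu h3 h4 h5
      exact h.noT (tok_K4_link h5 h3 h4 e1 e2 v.st R r1 r2 r3 r4)
  · have e0 : fden G P = 1 := by omega
    have e1 : rr G s t = 1 := by omega
    have e2 : rr G j t = 1 := by omega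
    have hPne : P.Nonempty := by
      rw [Set.nonempty_iff_ne_empty]
      intro hh
      rw [hh, fden_empty] at e0
      exact zero_ne_one e0
    by_cases h2 : 2 ≤ P.ncard
    · obtain ⟨D, hD⟩ := hPsep h2
      have ha := hPapex D hD
      rcases rr_cases G s j with e | e
      · have K' : Kp G U D P s j t := Kp.of_del hD h.toCB (Or.inl ha) hPf e
        exact K'.false_of_tri h (rr_one (c3 ▸ e1)) (rr_one (c4 ▸ e2))
      · refine hIH P D j t s hPlt (Kp.of_apex hD.rot h.toCB ha ?_)
        unfold eL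
        omega
    · obtain ⟨p, hp, h3, h4, h5, -⟩ := hPsingle h2 hPne
      rcases rr_cases G s j with e | e
      · -- a triangle
        obtain ⟨κ, hκ⟩ := hb
        have hpP : p ∈ P ∪ {j, t} := Or.inl (by rw [hp]; rfl)
        have hjP : j ∈ P ∪ {j, t} := Or.inr (Or.inl rfl)
        have htP : t ∈ P ∪ {j, t} := Or.inr (Or.inr rfl)
        have f1 := hκ p j hpP hjP h4
        have f2 := hκ p t hpP htP h5
        have f3 := hκ j t hjP htP (rr_one e2)
        exact f3 (eq_of_ne_of_ne f1.symm f2.symm)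
      · exact no_K4 h.noT h3 h4 h5 (rr_one e) (rr_one e1) (rr_one e2)

end Pool.Agent.Helper1.PHI
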