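import Pool.Agent.Helper1.PHI.Defs
import Pool.Agent.Helper57.TOK.Lists

/-!
# Tools (T1), (T2): apices, small sets, K4
-/

set_option autoImplicit false

namespace Pool.Agent.Helper1.PHI

open SimpleGraph Pool.Agent.Helper57.TOK Pool.Agent.Helper57.TD Pool.Agent.Helper57.TOP
  Pool.Agent.Helper82.TK Pool.Agent.Helper51.GX Pool.Agent.Helper75.SEP Pool.Agent.Helper1.SEP
  Pool.Agent.Helper73.C3

variable {V : Type*} {G : SimpleGraph V} {U A B X0 : Set V} {i j k s t : V}

/-- `A` with two roots balanced: the third root is an apex. -/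
lemma BalIn.rapex (s : Sep3 G U A B i j k) (hb : BalIn G (A ∪ {i, j})) : RApex G A k := by
  obtain ⟨κ, hκ⟩ := hb
  refine ⟨κ, ?_⟩
  intro u v hu hv huv
  refine hκ u v (Or.inl hu) ?_ huv
  rcases s.nbA hu huv with h | h | h | h
  · exact Or.inl h
  · exact Or.inr (Or.inl h)
  · exact Or.inr (Or.inr h)
  · exact absurd h hv

lemma pair_comm' (i j : V) : ({i, j} : Set V) = {j, i} := Set.pair_comm i j

/-- (T2): the pair opposite to an apex. -/
lemma Kp.of_apex [Finite V] (s : Sep3 G U A B i j k) (h : CB G U) (ha : RApex G A k)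
    (hn : 3 ≤ fden G A + eL G i j k - rr G i j) : Kp G U A B i j k where
  toSep3 := s
  Bk := fun hh => s.one_side h (Or.inr (Or.inr rfl)) (Or.inr (Or.inr rfl)) ha hh
  Ai := fun hh => s.rot.rot.one_root h ha (hh.rapex s.rot)
  Aj := fun hh => s.rot.one_root h (hh.rapex s.rot.rot.swap) ha
  num := hn

/-- (T2): deleting a side with an apex `i` or `j`. -/
lemma Kp.of_del [Finite V] (s : Sep3 G U A B i j k) (h : CB G U)
    (ha : RApex G A i ∨ RApex G A j) (hf : fden G A ≤ 1) (hr : rr G i j = 0) :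
    Kp G U B A i j k where
  toSep3 := s.flip
  Bk := fun hh => by
    rcases ha with ha | ha
    · exact s.rot.rot.one_root h hh ha
    · exact s.rot.one_root h ha hh
  Ai := fun hh => by
    have h1 : RApex G B i := hh.rapex s.flip.rot
    rcases ha with ha | ha
    · exact s.one_side h (Or.inl rfl) (Or.inl rfl) ha h1
    · exact s.one_side h (Or.inr (Or.inl rfl)) (Or.inl rfl) ha h1
  Aj := fun hh => by
    have h1 : RApex G B j := hh.rapex s.flip.rot.rot.swap
    rcases ha with ha | ha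
    · exact s.one_side h (Or.inl rfl) (Or.inr (Or.inl rfl)) ha h1
    · exact s.one_side h (Or.inr (Or.inl rfl)) (Or.inr (Or.inl rfl)) ha h1
  num := by
    have h1 := s.total h.edge_mem h.dens
    omega

lemma rapex_mono {l : V} {A' : Set V} (h : RApex G A l) (hs : A' ⊆ A) : RApex G A' l := by
  obtain ⟨κ, hκ⟩ := h
  exact ⟨κ, fun u v hu hv huv => hκ u v (hs hu) hv huv⟩

lemma rapex_le_one [Finite V] (s : Sep3 G U A B i j k) (h : CB G U) (ha : RApex G A i) :
    fden G A ≤ 1 :=
  s.apex_le h ha (fun hh => s.one_side h (Or.inl rfl) (Or.inl rfl) ha hh)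

/-- A set with at least two elements and neighbours among three vertices. -/
lemma sep_of [Finite V] (h : CB G U) {Y : Set V} (hYU : Y ⊆ U) (h2 : 2 ≤ Y.ncard)
    (hnb : ∀ u ∈ Y, ∀ v, G.Adj u v → v ∈ Y ∨ v = i ∨ v = j ∨ v = k) (hij : i ≠ j) (hik : i ≠ k)
    (hjk : j ≠ k) (hr : 2 ≤ (U \ (Y ∪ {i, j, k})).ncard) :
    ∃ D, Sep3 G U Y D i j k ∧ ∀ x ∈ U, x ∉ Y → x ≠ i → x ≠ j → x ≠ k → x ∈ D := by
  classical
  have hsub : Nb G Y ⊆ {i, j, k} := by
    rintro v ⟨hv, u, hu, huv⟩
    rcases hnb u hu v huv with h3 | h3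
    · exact absurd h3 hv
    · exact h3
  have h3 : ({i, j, k} : Set V).ncard = 3 := Set.ncard_eq_three.2 ⟨i, j, k, hij, hik, hjk, rfl⟩
  have hN : Nb G Y = {i, j, k} := by
    refine Set.eq_of_subset_of_ncard_le hsub ?_ (Set.toFinite _)
    by_contra hcon
    have h4 := h.conn Y hYU h2 (by omega)
    have h5 : U \ (Y ∪ {i, j, k}) ⊆ U \ (Y ∪ Nb G Y) := by
      rintro x ⟨hx, hx'⟩
      refine ⟨hx, ?_⟩
      rintro (h6 | h6)
      · exact hx' (Or.inl h6)
      · exact hx' (Or.inr (hsub h6))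
    have := Set.ncard_le_ncard h5 (Set.toFinite _)
    omega
  refine ⟨U \ (Y ∪ Nb G Y), Sep3.of_set h.edge_mem h.conn hYU h2 hN hij hik hjk
    (by rw [hN]; exact hr), ?_⟩
  intro x hx h4 h5 h6 h7
  refine ⟨hx, ?_⟩
  rw [hN]
  rintro (h8 | h8 | h8 | h8)
  · exact h4 h8
  · exact h5 h8
  · exact h6 h8
  · exact h7 h8

/-- A vertex with neighbours among three vertices. -/
lemma single_of [Finite V] (h : CB G U) {u : V} (hu : u ∈ U)
    (hnb : ∀ v, G.Adj u v → v = i ∨ v = j ∨ v = k) :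
    G.Adj u i ∧ G.Adj u j ∧ G.Adj u k ∧ fden G {u} = 1 := by
  classical
  have hsub : G.neighborSet u ⊆ {i, j, k} := fun v hv => hnb v hv
  have hd := h.deg3 u hu
  have hle := Set.ncard_le_ncard hsub (Set.toFinite _)
  have h3 : ({i, j, k} : Set V).ncard ≤ 3 := by
    have h4 := Set.ncard_insert_le i ({j, k} : Set V)
    have h5 := Set.ncard_insert_le j ({k} : Set V)
    rw [Set.ncard_singleton] at h5
    omega
  have heq : G.neighborSet u = {i, j, k} :=
    Set.eq_of_subset_of_ncard_le hsub (by omega) (Set.toFinite _)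
  have hmem : ∀ v ∈ ({i, j, k} : Set V), G.Adj u v := fun v hv => by
    have : v ∈ G.neighborSet u := by rw [heq]; exact hv
    exact this
  refine ⟨hmem i (by simp), hmem j (by simp), hmem k (by simp), ?_⟩
  unfold fden
  rw [rho_singleton, Set.ncard_singleton]
  have : (G.neighborSet u).ncard = 3 := by omega
  rw [this]; norm_num

/-- K4 with one edge replaced by an odd path. -/
lemma tok_K4_link {a b c d : V} (hab : G.Adj a b) (hac : G.Adj a c)
    (had : G.Adj a d) (hbc : G.Adj b c) (hbd : G.Adj b d) (hcd : c ≠ d) (R : G.Walk c d)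
    (hR : R.IsPath) (hw : wt (fun _ => (1 : ZMod 2)) R = 1)
    (ha : a ∉ R.support) (hb : b ∉ R.support) : HasTOK4s G (fun _ => 1) := by
  classical
  have hK : HasTOK4s (inG G {a, b, c, d} ⊔ fromEdgeSet {s(c, d)}) (fun _ => 1) := by
    have key : ∀ x y, (x = a ∧ y = b) ∨ (x = a ∧ y = c) ∨ (x = a ∧ y = d) ∨ (x = b ∧ y = c) ∨
        (x = b ∧ y = d) ∨ (x = c ∧ y = d) →
        (inG G {a, b, c, d} ⊔ fromEdgeSet {s(c, d)}).Adj x y := by
      intro x y hxy
      rw [SimpleGraph.sup_adj, SimpleGraph.fromEdgeSet_adj, inG_adj, Set.mem_singleton_iff]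
      rcases hxy with ⟨rfl, rfl⟩ | ⟨rfl, rfl⟩ | ⟨rfl, rfl⟩ | ⟨rfl, rfl⟩ | ⟨rfl, rfl⟩ | ⟨rfl, rfl⟩
      · exact Or.inl ⟨hab, by simp, by simp⟩
      · exact Or.inl ⟨hac, by simp, by simp⟩
      · exact Or.inl ⟨had, by simp, by simp⟩
      · exact Or.inl ⟨hbc, by simp, by simp⟩
      · exact Or.inl ⟨hbd, by simp, by simp⟩
      · exact Or.inr ⟨rfl, hcd⟩
    have n1 := hab.ne
    have n2 := hac.ne
    have n3 := had.ne
    have n4 := hbc.ne
    have n5 := hbd.ne
    refine HasTOK4s.of_lists ![a, b, c, d]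
      (fun x y => [(![a, b, c, d] : Fin 4 → V) x, (![a, b, c, d] : Fin 4 → V) y]) ?_ ?_ ?_
    · intro x y hxy
      fin_cases x <;> fin_cases y <;> simp_all
    · intro x y hxy
      refine ⟨?_, rfl, rfl, ?_, ?_⟩
      · simp only [List.isChain_cons_cons, List.isChain_singleton, and_true]
        apply key
        fin_cases x <;> fin_cases y <;> first | exact absurd hxy (by decide) | simp
      · fin_cases x <;> fin_cases y <;> first | exact absurd hxy (by decide) | simp_all
      · rfl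
    · intro x y z w _ _ _ u hu hu'
      simp only [List.mem_cons, List.not_mem_nil, or_false] at hu hu'
      exact ⟨hu, hu'⟩
  refine lift_odd (H := inG G {a, b, c, d}) (S := {a, b, c, d}) inG_le supp_inG (by simp)
    (by simp) R hR hw ?_ hK
  intro x hx hxS
  rcases hxS with rfl | rfl | rfl | rfl
  · exact absurd hx ha
  · exact absurd hx hb
  · exact Or.inl rfl
  · exact Or.inr rfl

/-- No K4. -/
lemma no_K4 (hno : ¬ HasTOK4s G (fun _ => 1)) {a b c d : V} (hab : G.Adj a b) (hac : G.Adj a c)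
    (had : G.Adj a d) (hbc : G.Adj b c) (hbd : G.Adj b d) (hcd : G.Adj c d) : False := by
  apply hno
  refine tok_K4_link hab hac had hbc hbd hcd.ne (Walk.cons hcd Walk.nil) ?_ (by simp) ?_ ?_
  · rw [Walk.cons_isPath_iff]
    exact ⟨Walk.IsPath.nil, by simpa using hcd.ne⟩
  · simp only [Walk.support_cons, Walk.support_nil, List.mem_cons, List.not_mem_nil, or_false,
      not_or]
    exact ⟨hac.ne, had.ne⟩
  · simp only [Walk.support_cons, Walk.support_nil, List.mem_cons, List.not_mem_nil, or_false,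
      not_or]
    exact ⟨hbc.ne, hbd.ne⟩

lemma rr_one (h : rr G i j = 1) : G.Adj i j := by
  by_contra hh
  unfold rr at h
  rw [if_neg hh] at h
  exact zero_ne_one h

lemma rr_nonneg (G : SimpleGraph V) (i j : V) : 0 ≤ rr G i j := by
  rcases rr_cases G i j with h | h <;> rw [h]
  norm_num

lemma rr_le_one (G : SimpleGraph V) (i j : V) : rr G i j ≤ 1 := by
  rcases rr_cases G i j with h | h <;> rw [h]
  norm_num

/-! ### Facts on a violation -/

lemma Vio.kX (v : Vio G A B i j k s t X0) (K : Kp G U A B i j k) : k ∉ X0 :=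
  fun hh => K.toSep3.notA (Or.inr (Or.inr rfl)) (v.sub hh)

lemma Vio.ks (v : Vio G A B i j k s t X0) (K : Kp G U A B i j k) : s ≠ k := by
  rintro rfl
  rcases v.sA with h | h | h
  · exact K.toSep3.notA (Or.inr (Or.inr rfl)) h
  · exact K.ik h.symm
  · exact K.jk h.symm

lemma Vio.kt (v : Vio G A B i j k s t X0) (K : Kp G U A B i j k) : t ≠ k := v.swap_st.ks K

lemma Vio.sB (v : Vio G A B i j k s t X0) (K : Kp G U A B i j k) : s ∉ B := by
  intro hh
  rcases v.sA with h | h | h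
  · exact Set.disjoint_left.1 K.disj h hh
  · exact K.toSep3.notB (Or.inl rfl) (h ▸ hh)
  · exact K.toSep3.notB (Or.inr (Or.inl rfl)) (h ▸ hh)

lemma Vio.tB (v : Vio G A B i j k s t X0) (K : Kp G U A B i j k) : t ∉ B := v.swap_st.sB K

lemma Vio.lt [Finite V] (v : Vio G A B i j k s t X0) : X0.ncard < A.ncard := by
  apply Set.ncard_lt_ncard _ (Set.toFinite _)
  refine ⟨v.sub, ?_⟩
  intro hAX
  have hs : s = i ∨ s = j := by
    rcases v.sA with h | h
    · exact absurd (hAX h) v.sX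
    · exact h
  have ht : t = i ∨ t = j := by
    rcases v.tA with h | h
    · exact absurd (hAX h) v.tX
    · exact h
  have hst := v.st
  rcases v.nij with ⟨h1, h2⟩ | ⟨h1, h2⟩
  · rcases hs with h | h
    · exact h1 h.symm
    · rcases ht with h' | h'
      · exact h2 h'.symm
      · exact hst (h.trans h'.symm)
  · rcases hs with h | h
    · rcases ht with h' | h'
      · exact hst (h.trans h'.symm)
      · exact h2 h'.symm
    · exact h1 h.symm

/-- `X0` as a side. -/
lemma Vio.sep [Finite V] (v : Vio G A B i j k s t X0) (K : Kp G U A B i j k) (h : CB G U)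
    (h2 : 2 ≤ X0.ncard) : ∃ D, Sep3 G U X0 D s t k ∧ B ⊆ D := by
  have hr : 2 ≤ (U \ (X0 ∪ {s, t, k})).ncard := by
    refine K.B2.trans (Set.ncard_le_ncard ?_ (Set.toFinite _))
    intro x hx
    refine ⟨K.BU hx, ?_⟩
    rintro (h3 | h3 | h3 | h3)
    · exact Set.disjoint_left.1 K.disj (v.sub h3) hx
    · exact v.sB K (h3 ▸ hx)
    · exact v.tB K (h3 ▸ hx)
    · exact K.toSep3.notB (Or.inr (Or.inr rfl)) (h3 ▸ hx)
  obtain ⟨D, hD, hD'⟩ := sep_of h (v.sub.trans K.AU) h2
    (fun u hu w hw => by have := v.nb u hu w hw; tauto) v.st (v.ks K) (v.kt K) hr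
  refine ⟨D, hD, ?_⟩
  intro x hx
  refine hD' x (K.BU hx) ?_ ?_ ?_ ?_
  · intro h3; exact Set.disjoint_left.1 K.disj (v.sub h3) hx
  · rintro rfl; exact v.sB K hx
  · rintro rfl; exact v.tB K hx
  · rintro rfl; exact K.toSep3.notB (Or.inr (Or.inr rfl)) hx

/-- `X0` has one element: it is adjacent to `k`, `s`, `t`. -/
lemma Vio.single [Finite V] (v : Vio G A B i j k s t X0) (K : Kp G U A B i j k) (h : CB G U)
    (h1 : ¬ 2 ≤ X0.ncard) : ∃ u, X0 = {u} ∧ G.Adj u s ∧ G.Adj u t ∧ G.Adj u k ∧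
      fden G X0 = 1 := by
  classical
  have hpos : 0 < X0.ncard := (Set.ncard_pos (Set.toFinite _)).2 v.ne
  obtain ⟨u, hu⟩ := Set.ncard_eq_one.1 (show X0.ncard = 1 by omega)
  have huX : u ∈ X0 := by rw [hu]; rfl
  have h3 := single_of (i := s) (j := t) (k := k) h (K.AU (v.sub huX)) (by
    intro w hw
    rcases v.nb u huX w hw with h4 | h4 | h4 | h4
    · rw [hu, Set.mem_singleton_iff] at h4
      exact absurd h4.symm hw.ne
    · exact Or.inr (Or.inr h4)
    · exact Or.inl h4
    · exact Or.inr (Or.inl h4))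
  exact ⟨u, hu, h3.1, h3.2.1, h3.2.2.1, by rw [hu]; exact h3.2.2.2⟩

/-- (T3). -/
theorem Vio.num3 [Finite V] (v : Vio G A B i j k s t X0) (K : Kp G U A B i j k) (h : CB G U)
    (hIH : ∀ (A' B' : Set V) (i' j' k' : V), A'.ncard < A.ncard → ¬ Kp G U A' B' i' j' k') :
    fden G X0 + rr G k s + rr G k t + rr G s t ≤ 3 := by
  classical
  have c1 := rr_comm G k s
  have c2 := rr_comm G k t
  have c3 := rr_comm G s t
  have l1 := rr_le_one G k s
  have l2 := rr_le_one G k t
  have l3 := rr_le_one G s t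
  by_cases h2 : 2 ≤ X0.ncard
  · obtain ⟨D, hD, hBD⟩ := v.sep K h h2
    have hlt := v.lt
    by_cases a1 : BalIn G (X0 ∪ {t, k})
    · have ha : RApex G X0 s := a1.rapex hD.rot
      have hf := rapex_le_one hD h ha
      by_contra hcon
      refine hIH X0 D k t s hlt (Kp.of_apex hD.rot.swap h ha ?_)
      unfold eL
      omega
    by_cases a2 : BalIn G (X0 ∪ {s, k})
    · have ha : RApex G X0 t := a2.rapex hD.rot.rot.swap
      have hf := rapex_le_one hD.swap h ha
      by_contra hcon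
      refine hIH X0 D k s t hlt (Kp.of_apex hD.rot.rot h ha ?_)
      unfold eL
      omega
    · by_contra hcon
      refine hIH X0 D s t k hlt ⟨hD, fun hh => K.Bk (rapex_mono hh hBD), a1, a2, ?_⟩
      unfold eL
      omega
  · obtain ⟨u, -, h3, h4, h5, h6⟩ := v.single K h h2
    by_contra hcon
    have e1 : rr G k s = 1 := by omega
    have e2 : rr G k t = 1 := by omega
    have e3 : rr G s t = 1 := by omega
    exact no_K4 h.noT h3 h4 h5 (rr_one e3) (rr_one (c1 ▸ e1)) (rr_one (c2 ▸ e2))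

end Pool.Agent.Helper1.PHI
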